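import Pool.Agent.Helper57.Zeta.GammaBd

open Complex Filter Topology MeasureTheory Set

namespace Pool.Agent.Helper57.Zeta

/-- exponential decay of the theta kernel minus its constant term -/
lemma evenKernel_sub_one_bound {t : ℝ} (ht : 1 ≤ t) :
    |HurwitzZeta.evenKernel 0 t - 1| ≤ 4 * Real.exp (-(Real.pi * t)) := by
  have ht0 : 0 < t := by linarith
  rw [HurwitzZeta.evenKernel_eq_cosKernel_of_zero]
  have h := HurwitzZeta.hasSum_nat_cosKernel₀ 0 ht0
  simp only [mul_zero, zero_mul, Real.cos_zero, mul_one] at h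
  have h' : HasSum (fun n : ℕ => 2 * Real.exp (-Real.pi * ((n : ℝ) + 1) ^ 2 * t))
      (HurwitzZeta.cosKernel 0 t - 1) := by
    simpa using h
  set q := Real.exp (-(Real.pi * t)) with hq
  have hq0 : 0 < q := Real.exp_pos _
  have hq1 : q ≤ 1 / 2 := by
    have h1 : Real.pi * t ≥ 1 := by nlinarith [Real.pi_gt_three]
    have h2 : q ≤ Real.exp (-1) := Real.exp_le_exp.mpr (by linarith)
    have h3 : Real.exp (-1) < 1 / 2 := by
      have := Real.exp_neg_one_lt_d9; linarith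
    linarith
  have hg : HasSum (fun n : ℕ => 2 * q * q ^ n) (2 * q * (1 - q)⁻¹) :=
    (hasSum_geometric_of_lt_one hq0.le (by linarith)).mul_left _
  have hb : ∀ n : ℕ, ‖2 * Real.exp (-Real.pi * ((n : ℝ) + 1) ^ 2 * t)‖ ≤ 2 * q * q ^ n := by
    intro n
    rw [Real.norm_of_nonneg (by positivity)]
    have h1 : 2 * q * q ^ n = 2 * Real.exp (-(Real.pi * t) * ((n : ℝ) + 1)) := by
      rw [mul_assoc, ← pow_succ', hq, ← Real.exp_nat_mul]
      congr 2; push_cast; ring
    rw [h1]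
    apply mul_le_mul_of_nonneg_left _ (by norm_num)
    apply Real.exp_le_exp.mpr
    have hn : (0:ℝ) ≤ n := Nat.cast_nonneg n
    have hpt : 0 < Real.pi * t := mul_pos Real.pi_pos ht0
    nlinarith [mul_nonneg hpt.le (mul_nonneg hn (by linarith : (0:ℝ) ≤ (n:ℝ) + 1))]
  have h2 : ‖HurwitzZeta.cosKernel 0 t - 1‖ ≤ 2 * q * (1 - q)⁻¹ := by
    rw [← h'.tsum_eq]
    exact tsum_of_norm_bounded hg hb
  rw [Real.norm_eq_abs] at h2
  refine h2.trans ?_
  have h3 : (1 - q)⁻¹ ≤ 2 := by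
    rw [inv_le_comm₀ (by linarith) (by norm_num)]
    linarith
  nlinarith

lemma mellinConvergent_f_modif (s : ℂ) :
    MellinConvergent (HurwitzZeta.hurwitzEvenFEPair 0).f_modif s :=
  ((HurwitzZeta.hurwitzEvenFEPair 0).isStrongFEPair_toStrongFEPair.hasMellin s).1

lemma f_modif_of_gt_one {t : ℝ} (ht : 1 < t) :
    (HurwitzZeta.hurwitzEvenFEPair 0).f_modif t = ((HurwitzZeta.evenKernel 0 t - 1 : ℝ) : ℂ) := by
  unfold WeakFEPair.f_modif
  rw [Pi.add_apply, indicator_of_mem (show t ∈ Ioi (1:ℝ) from ht),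
    indicator_of_notMem (by simp; intro _; linarith), add_zero]
  simp [HurwitzZeta.hurwitzEvenFEPair]

/-- the constant part of the bound -/
noncomputable def K0 : ℝ :=
  ∫ t in Ioc (0:ℝ) 1, t ^ ((1:ℝ) / 4 - 1) * ‖(HurwitzZeta.hurwitzEvenFEPair 0).f_modif t‖

lemma K0_nonneg : 0 ≤ K0 := by
  unfold K0
  apply setIntegral_nonneg measurableSet_Ioc
  intro t ht
  have : 0 < t := ht.1
  positivity

lemma norm_completedZeta₀_le {s : ℂ} (hs : 1 / 2 ≤ s.re) :
    ‖completedRiemannZeta₀ s‖ ≤ K0 + 4 * Real.Gamma (s.re / 2) := by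
  set F := (HurwitzZeta.hurwitzEvenFEPair 0).f_modif with hF
  set x : ℝ := s.re / 2 with hx
  have hx4 : 1 / 4 ≤ x := by rw [hx]; linarith
  have hx0 : 0 < x := by linarith
  have hnorm : ∀ (z : ℂ), ∀ t ∈ Ioi (0:ℝ), ‖(t : ℂ) ^ (z - 1) • F t‖ = t ^ (z.re - 1) * ‖F t‖ := by
    intro z t ht
    rw [norm_smul, Complex.norm_cpow_eq_rpow_re_of_pos ht]
    simp
  have hint : IntegrableOn (fun t : ℝ => t ^ (x - 1) * ‖F t‖) (Ioi 0) := by
    have h1 := (mellinConvergent_f_modif (x : ℂ)).norm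
    refine IntegrableOn.congr_fun h1 ?_ measurableSet_Ioi
    intro t ht
    simpa only [ofReal_re] using hnorm (x : ℂ) t ht
  have hint0 : IntegrableOn (fun t : ℝ => t ^ ((1:ℝ) / 4 - 1) * ‖F t‖) (Ioi 0) := by
    have h1 := (mellinConvergent_f_modif (((1:ℝ) / 4 : ℝ) : ℂ)).norm
    refine IntegrableOn.congr_fun h1 ?_ measurableSet_Ioi
    intro t ht
    simpa only [ofReal_re] using hnorm (((1:ℝ) / 4 : ℝ) : ℂ) t ht
  have h1 : ‖mellin F (s / 2)‖ ≤ ∫ t in Ioi (0:ℝ), t ^ (x - 1) * ‖F t‖ := by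
    unfold mellin
    refine (norm_integral_le_integral_norm _).trans (le_of_eq ?_)
    apply setIntegral_congr_fun measurableSet_Ioi
    intro t ht
    have := hnorm (s / 2) t ht
    simp only
    rw [this]
    have h2 : (s / 2).re = x := by simp [hx]
    rw [h2]
  have hsplit : ∫ t in Ioi (0:ℝ), t ^ (x - 1) * ‖F t‖ =
      (∫ t in Ioc (0:ℝ) 1, t ^ (x - 1) * ‖F t‖) + ∫ t in Ioi (1:ℝ), t ^ (x - 1) * ‖F t‖ := by
    rw [← setIntegral_union]
    · rw [Ioc_union_Ioi_eq_Ioi zero_le_one]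
    · exact Ioc_disjoint_Ioi le_rfl
    · exact measurableSet_Ioi
    · exact hint.mono_set Ioc_subset_Ioi_self
    · exact hint.mono_set (Ioi_subset_Ioi zero_le_one)
  have hA : (∫ t in Ioc (0:ℝ) 1, t ^ (x - 1) * ‖F t‖) ≤ K0 := by
    unfold K0
    apply setIntegral_mono_on (hint.mono_set Ioc_subset_Ioi_self)
      (hint0.mono_set Ioc_subset_Ioi_self) measurableSet_Ioc
    intro t ht
    apply mul_le_mul_of_nonneg_right _ (norm_nonneg _)
    exact Real.rpow_le_rpow_of_exponent_ge ht.1 ht.2 (by linarith)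
  have hG := Real.integral_rpow_mul_exp_neg_mul_Ioi hx0 Real.pi_pos
  have hGint : IntegrableOn (fun t : ℝ => t ^ (x - 1) * Real.exp (-(Real.pi * t))) (Ioi 0) := by
    have h2 := integrableOn_rpow_mul_exp_neg_mul_rpow (s := x - 1) (p := 1) (b := Real.pi)
      (by linarith) one_pos Real.pi_pos
    refine h2.congr_fun ?_ measurableSet_Ioi
    intro t ht
    simp
  have hB : (∫ t in Ioi (1:ℝ), t ^ (x - 1) * ‖F t‖) ≤ 4 * Real.Gamma x := by
    calc (∫ t in Ioi (1:ℝ), t ^ (x - 1) * ‖F t‖)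
        ≤ ∫ t in Ioi (1:ℝ), 4 * (t ^ (x - 1) * Real.exp (-(Real.pi * t))) := by
          apply setIntegral_mono_on (hint.mono_set (Ioi_subset_Ioi zero_le_one))
            ((hGint.mono_set (Ioi_subset_Ioi zero_le_one)).const_mul 4) measurableSet_Ioi
          intro t ht
          have ht1 : 1 < t := ht
          rw [hF, f_modif_of_gt_one ht1, Complex.norm_real, Real.norm_eq_abs]
          have h3 := evenKernel_sub_one_bound ht1.le
          have h4 : 0 ≤ t ^ (x - 1) := by positivity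
          nlinarith
      _ ≤ ∫ t in Ioi (0:ℝ), 4 * (t ^ (x - 1) * Real.exp (-(Real.pi * t))) := by
          apply setIntegral_mono_set (hGint.const_mul 4)
          · filter_upwards [ae_restrict_mem measurableSet_Ioi] with t ht
            have : (0:ℝ) < t := ht
            positivity
          · exact (Ioi_subset_Ioi zero_le_one).eventuallyLE
      _ = 4 * ((1 / Real.pi) ^ x * Real.Gamma x) := by
          rw [integral_const_mul, hG]
      _ ≤ 4 * Real.Gamma x := by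
          have h5 : (1 / Real.pi) ^ x ≤ 1 := by
            apply Real.rpow_le_one (by positivity) _ hx0.le
            rw [div_le_one Real.pi_pos]
            linarith [Real.pi_gt_three]
          have h6 := Real.Gamma_pos_of_pos hx0
          nlinarith
  rw [completedRiemannZeta₀_eq_mellin, norm_div]
  have h2 : ‖(2:ℂ)‖ = 2 := by simp
  rw [h2]
  have hG0 := Real.Gamma_pos_of_pos hx0
  have hK := K0_nonneg
  have : ‖mellin F (s / 2)‖ ≤ K0 + 4 * Real.Gamma x := by
    rw [hsplit] at h1; linarith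
  have h7 : ‖mellin F (s / 2)‖ / 2 ≤ (K0 + 4 * Real.Gamma x) / 2 := by linarith
  linarith

/-- Upper bound for log⁺|xi| in the whole plane. -/
lemma posLog_xi_le : ∃ C : ℝ, 0 ≤ C ∧ ∀ z : ℂ,
    Real.posLog ‖xi (1 / 2 + z)‖ ≤ |z.re| / 2 * Real.log (‖z‖ + 3) + C * (‖z‖ + 1) := by
  refine ⟨20 + Real.log (K0 + 65), by
    have : 0 ≤ Real.log (K0 + 65) := Real.log_nonneg (by linarith [K0_nonneg])
    linarith, ?_⟩
  -- reduce to Re z ≥ 0
  have key : ∀ z : ℂ, 0 ≤ z.re → Real.posLog ‖xi (1 / 2 + z)‖ ≤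
      z.re / 2 * Real.log (‖z‖ + 3) + (20 + Real.log (K0 + 65)) * (‖z‖ + 1) := by
    intro z hz
    set s : ℂ := 1 / 2 + z with hs
    have hsre : s.re = 1 / 2 + z.re := by simp [hs]
    have hs2 : 1 / 2 ≤ s.re := by rw [hsre]; linarith
    have h1 := norm_completedZeta₀_le hs2
    have hx4 : 1 / 4 ≤ s.re / 2 := by linarith
    have h2 := gamma_upper hx4
    set y : ℝ := s.re / 2 + 2 with hy
    have hy2 : 2 ≤ y := by rw [hy]; linarith
    have hyy : 1 ≤ y ^ y := Real.one_le_rpow (by linarith) (by linarith)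
    have hK := K0_nonneg
    have hLam : ‖completedRiemannZeta₀ s‖ ≤ (K0 + 64) * y ^ y := by
      have : K0 ≤ K0 * y ^ y := le_mul_of_one_le_right hK hyy
      nlinarith
    have hsn : ‖s‖ ≤ ‖z‖ + 1 := by
      calc ‖s‖ ≤ ‖(1 / 2 : ℂ)‖ + ‖z‖ := norm_add_le _ _
        _ ≤ ‖z‖ + 1 := by norm_num; linarith
    have hsn1 : ‖s - 1‖ ≤ ‖z‖ + 1 := by
      have : s - 1 = z + (-(1/2)) := by rw [hs]; ring
      rw [this]
      calc _ ≤ ‖z‖ + ‖(-(1 / 2) : ℂ)‖ := norm_add_le _ _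
        _ ≤ ‖z‖ + 1 := by norm_num
    have hzn := norm_nonneg z
    have hA : ‖xi s‖ ≤ (‖z‖ + 1) ^ 2 * ((K0 + 65) * y ^ y) := by
      unfold xi
      calc ‖s * (s - 1) * completedRiemannZeta₀ s + 1‖
          ≤ ‖s * (s - 1) * completedRiemannZeta₀ s‖ + ‖(1:ℂ)‖ := norm_add_le _ _
        _ = ‖s‖ * ‖s - 1‖ * ‖completedRiemannZeta₀ s‖ + 1 := by
            rw [norm_mul, norm_mul, norm_one]
        _ ≤ (‖z‖ + 1) * (‖z‖ + 1) * ((K0 + 64) * y ^ y) + 1 := by
            gcongr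
        _ ≤ (‖z‖ + 1) ^ 2 * ((K0 + 65) * y ^ y) := by
            have h3 : 1 ≤ (‖z‖ + 1) ^ 2 := by nlinarith
            have h4 : 1 ≤ (‖z‖ + 1) ^ 2 * y ^ y := by nlinarith
            nlinarith
    have hApos : 1 ≤ (‖z‖ + 1) ^ 2 * ((K0 + 65) * y ^ y) := by
      have h3 : 1 ≤ (‖z‖ + 1) ^ 2 := by nlinarith
      have h4 : 1 ≤ (K0 + 65) * y ^ y := by nlinarith
      nlinarith
    have hpl : Real.posLog ‖xi s‖ ≤ Real.log ((‖z‖ + 1) ^ 2 * ((K0 + 65) * y ^ y)) := by
      rw [← Real.posLog_eq_log (x := (‖z‖ + 1) ^ 2 * ((K0 + 65) * y ^ y))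
        (by rw [abs_of_nonneg (by linarith)]; exact hApos)]
      exact Real.posLog_le_posLog (norm_nonneg _) hA
    rw [Real.log_mul (by positivity) (by positivity), Real.log_mul (by positivity) (by positivity),
      Real.log_pow, Real.log_rpow (by linarith)] at hpl
    push_cast at hpl
    have hl1 : Real.log (‖z‖ + 1) ≤ ‖z‖ := by
      have := Real.log_le_sub_one_of_pos (show 0 < ‖z‖ + 1 by linarith); linarith
    have hl3 : Real.log (‖z‖ + 3) ≤ ‖z‖ + 2 := by
      have := Real.log_le_sub_one_of_pos (show 0 < ‖z‖ + 3 by linarith); linarith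
    have hl30 : 0 ≤ Real.log (‖z‖ + 3) := Real.log_nonneg (by linarith)
    have hzre : z.re ≤ ‖z‖ := Complex.re_le_norm z
    have hy3 : y ≤ ‖z‖ + 3 := by rw [hy, hsre]; linarith
    have hly : Real.log y ≤ Real.log (‖z‖ + 3) := Real.log_le_log (by linarith) hy3
    have hyl : y * Real.log y ≤ (z.re / 2 + 9 / 4) * Real.log (‖z‖ + 3) := by
      have : y = z.re / 2 + 9 / 4 := by rw [hy, hsre]; ring
      rw [← this]
      exact mul_le_mul_of_nonneg_left hly (by linarith)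
    have hK65 : 0 ≤ Real.log (K0 + 65) := Real.log_nonneg (by linarith)
    nlinarith
  intro z
  rcases le_or_gt 0 z.re with hz | hz
  · rw [abs_of_nonneg hz]; exact key z hz
  · have h := key (-z) (by simp; linarith)
    have h2 : xi (1 / 2 + z) = xi (1 / 2 + -z) := by
      rw [← xi_one_sub]; congr 1; ring
    rw [h2, abs_of_neg hz]
    simpa using h

/-- Lower bound for log|xi| away from the strip. -/
lemma log_xi_ge_aux {z : ℂ} (hz : 3 / 2 ≤ |z.re|) :
    |z.re| / 2 * Real.log ‖z‖ - 6 * (‖z‖ + 1) ≤ Real.log ‖xi (1 / 2 + z)‖ := by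
  have key : ∀ z : ℂ, 3 / 2 ≤ z.re → z.re / 2 * Real.log ‖z‖ - 6 * (‖z‖ + 1) ≤
      Real.log ‖xi (1 / 2 + z)‖ := by
    intro z hz
    set s : ℂ := 1 / 2 + z with hs
    have hsre : s.re = 1 / 2 + z.re := by simp [hs]
    have h1 := log_norm_xi_ge (s := s) (by rw [hsre]; linarith)
    have hzn : z.re ≤ ‖z‖ := Complex.re_le_norm z
    have hz0 : 0 < ‖z‖ := by linarith
    have hsz : ‖z‖ ≤ ‖s‖ := by
      have h2 : ‖z‖ ^ 2 ≤ ‖s‖ ^ 2 := by
        rw [← Complex.normSq_eq_norm_sq, ← Complex.normSq_eq_norm_sq, Complex.normSq_apply,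
          Complex.normSq_apply]
        have : s.im = z.im := by simp [hs]
        rw [this, hsre]
        nlinarith
      exact (pow_le_pow_iff_left₀ (norm_nonneg _) (norm_nonneg _) two_ne_zero).mp h2
    have hsn : ‖s‖ ≤ ‖z‖ + 1 / 2 := by
      calc ‖s‖ ≤ ‖(1 / 2 : ℂ)‖ + ‖z‖ := norm_add_le _ _
        _ = ‖z‖ + 1 / 2 := by norm_num; ring
    have hs2 : 2 ≤ s.re := by rw [hsre]; linarith
    have hs1 : 1 ≤ ‖s‖ := by
      have := Complex.re_le_norm s; linarith
    have hl : 0 ≤ Real.log ‖s‖ := Real.log_nonneg hs1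
    have hl2 : Real.log ‖z‖ ≤ Real.log ‖s‖ := Real.log_le_log hz0 hsz
    have h3 : z.re / 2 * Real.log ‖z‖ ≤ s.re / 2 * Real.log ‖s‖ := by
      calc z.re / 2 * Real.log ‖z‖ ≤ z.re / 2 * Real.log ‖s‖ :=
            mul_le_mul_of_nonneg_left hl2 (by linarith)
        _ ≤ s.re / 2 * Real.log ‖s‖ := by
            apply mul_le_mul_of_nonneg_right _ hl
            rw [hsre]; linarith
    linarith
  rcases le_or_gt 0 z.re with h0 | h0
  · rw [abs_of_nonneg h0] at hz ⊢
    exact key z hz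
  · rw [abs_of_neg h0] at hz ⊢
    have h := key (-z) (by simpa using hz)
    have h2 : xi (1 / 2 + z) = xi (1 / 2 + -z) := by
      rw [← xi_one_sub]; congr 1; ring
    rw [h2]
    simpa using h

end Pool.Agent.Helper57.Zeta
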