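import Mathlib

open Complex Filter Topology MeasureTheory Set

namespace Pool.Agent.Helper57.Zeta

/-- The entire function s(s-1)Λ(s). -/
noncomputable def xi (s : ℂ) : ℂ := s * (s - 1) * completedRiemannZeta₀ s + 1

lemma differentiable_xi : Differentiable ℂ xi := by
  unfold xi
  exact ((differentiable_id.mul (differentiable_id.sub_const 1)).mul
    differentiable_completedZeta₀).add_const 1

lemma xi_one_sub (s : ℂ) : xi (1 - s) = xi s := by
  unfold xi
  rw [completedRiemannZeta₀_one_sub]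
  ring

lemma xi_eq {s : ℂ} (h0 : s ≠ 0) (h1 : s ≠ 1) :
    xi s = s * (s - 1) * completedRiemannZeta s := by
  unfold xi
  rw [completedRiemannZeta_eq]
  have h2 : (1 : ℂ) - s ≠ 0 := sub_ne_zero.mpr (Ne.symm h1)
  field_simp
  ring

lemma xi_eq_zeta {s : ℂ} (h0 : 0 < s.re) (h1 : s ≠ 1) :
    xi s = s * (s - 1) * (Gammaℝ s * riemannZeta s) := by
  have hs0 : s ≠ 0 := by
    rintro rfl; simp at h0
  have hG : Gammaℝ s ≠ 0 := Gammaℝ_ne_zero_of_re_pos h0
  rw [xi_eq hs0 h1, riemannZeta_def_of_ne_zero hs0]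
  field_simp

lemma xi_zero : xi 0 = 1 := by simp [xi]
lemma xi_one : xi 1 = 1 := by simp [xi]

lemma analyticAt_xi (s : ℂ) : AnalyticAt ℂ xi s := differentiable_xi.analyticAt s

/-- zeros of xi lie in the open critical strip -/
lemma xi_ne_zero_of_one_le_re {s : ℂ} (h : 1 ≤ s.re) : xi s ≠ 0 := by
  rcases eq_or_ne s 1 with rfl | h1
  · simp [xi_one]
  · have h0 : 0 < s.re := by linarith
    have hs0 : s ≠ 0 := by
      rintro rfl; simp at h0
    rw [xi_eq_zeta h0 h1]
    exact mul_ne_zero (mul_ne_zero hs0 (sub_ne_zero.mpr h1))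
      (mul_ne_zero (Gammaℝ_ne_zero_of_re_pos h0) (riemannZeta_ne_zero_of_one_le_re h))

lemma xi_ne_zero_of_re_le_zero {s : ℂ} (h : s.re ≤ 0) : xi s ≠ 0 := by
  rw [← xi_one_sub]
  apply xi_ne_zero_of_one_le_re
  simp; linarith

lemma xi_eq_zero_iff {s : ℂ} : xi s = 0 ↔ (0 < s.re ∧ s.re < 1 ∧ riemannZeta s = 0) := by
  constructor
  · intro h
    have h1 : s.re < 1 := by
      by_contra h1; exact xi_ne_zero_of_one_le_re (not_lt.mp h1) h
    have h0 : 0 < s.re := by
      by_contra h0; exact xi_ne_zero_of_re_le_zero (not_lt.mp h0) h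
    refine ⟨h0, h1, ?_⟩
    have hs1 : s ≠ 1 := by rintro rfl; simp at h1
    have hs0 : s ≠ 0 := by rintro rfl; simp at h0
    rw [xi_eq_zeta h0 hs1] at h
    have := mul_ne_zero hs0 (sub_ne_zero.mpr hs1)
    have hG := Gammaℝ_ne_zero_of_re_pos h0
    simpa [hs0, sub_ne_zero.mpr hs1, hG] using h
  · rintro ⟨h0, h1, h⟩
    have hs1 : s ≠ 1 := by rintro rfl; simp at h1
    rw [xi_eq_zeta h0 hs1, h]; simp

/-- The multiplicities of zeros of xi and of zeta in the critical strip agree. -/
lemma analyticOrderAt_xi {s : ℂ} (h0 : 0 < s.re) (h1 : s.re < 1) :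
    analyticOrderAt xi s = analyticOrderAt riemannZeta s := by
  have hs1 : s ≠ 1 := by rintro rfl; simp at h1
  have hs0 : s ≠ 0 := by rintro rfl; simp at h0
  have hz : AnalyticAt ℂ riemannZeta s := analyticOn_riemannZeta s hs1
  have hopen : IsOpen {z : ℂ | 0 < z.re ∧ z.re < 1} :=
    (isOpen_lt continuous_const continuous_re).inter (isOpen_lt continuous_re continuous_const)
  have hGan : AnalyticAt ℂ (fun z : ℂ => z * (z - 1) * Gammaℝ z) s := by
    have hd : DifferentiableOn ℂ (fun z : ℂ => z * (z - 1) * Gammaℝ z) {z : ℂ | 0 < z.re ∧ z.re < 1} := by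
      intro z hz
      apply DifferentiableAt.differentiableWithinAt
      have hG : DifferentiableAt ℂ Gammaℝ z := by
        have : Gammaℝ = fun z : ℂ => (Real.pi : ℂ) ^ (-z / 2) * Gamma (z / 2) := by
          ext z; rw [Gammaℝ_def]
        rw [this]
        apply DifferentiableAt.mul
        · apply DifferentiableAt.const_cpow
          · fun_prop
          · left; exact_mod_cast Real.pi_ne_zero
        · apply DifferentiableAt.comp (g := Gamma) (f := fun z : ℂ => z / 2)
          · apply differentiableAt_Gamma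
            intro m hm
            have : (z / 2).re = -(m : ℝ) := by rw [hm]; simp
            have h2 : (z / 2).re = z.re / 2 := by simp
            rw [h2] at this
            have hz1 := hz.1
            have : z.re = -2 * (m : ℝ) := by linarith
            have hm0 : (0 : ℝ) ≤ m := Nat.cast_nonneg m
            linarith
          · fun_prop
      exact (differentiableAt_id.mul (differentiableAt_id.sub_const 1)).mul hG
    exact hd.analyticAt (hopen.mem_nhds ⟨h0, h1⟩)
  have heq : xi =ᶠ[𝓝 s] fun z => (z * (z - 1) * Gammaℝ z) * riemannZeta z := by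
    filter_upwards [hopen.mem_nhds (show s ∈ {z : ℂ | 0 < z.re ∧ z.re < 1} from ⟨h0, h1⟩)] with z hz
    have hz1 : z ≠ 1 := by rintro rfl; simp at hz
    rw [xi_eq_zeta hz.1 hz1]; ring
  rw [analyticOrderAt_congr heq]
  have : (fun z => (z * (z - 1) * Gammaℝ z) * riemannZeta z) =
      (fun z : ℂ => z * (z - 1) * Gammaℝ z) * riemannZeta := rfl
  rw [this, analyticOrderAt_mul hGan hz]
  have hne : (fun z : ℂ => z * (z - 1) * Gammaℝ z) s ≠ 0 := by
    exact mul_ne_zero (mul_ne_zero hs0 (sub_ne_zero.mpr hs1)) (Gammaℝ_ne_zero_of_re_pos h0)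
  rw [(hGan.analyticOrderAt_eq_zero).mpr hne, zero_add]

/-- conjugation symmetry of Λ₀: we use the real kernel -/
lemma completedRiemannZeta₀_eq_mellin (s : ℂ) :
    completedRiemannZeta₀ s =
      (mellin (HurwitzZeta.hurwitzEvenFEPair 0).f_modif (s / 2)) / 2 := rfl

lemma f_modif_conj (t : ℝ) :
    starRingEnd ℂ ((HurwitzZeta.hurwitzEvenFEPair 0).f_modif t) =
      (HurwitzZeta.hurwitzEvenFEPair 0).f_modif t := by
  unfold WeakFEPair.f_modif
  simp only [Pi.add_apply, map_add, HurwitzZeta.hurwitzEvenFEPair, if_true]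
  congr 1
  · by_cases h : t ∈ Ioi (1:ℝ)
    · simp [indicator_of_mem h]
    · simp [indicator_of_notMem h]
  · by_cases h : t ∈ Ioo (0:ℝ) 1
    · simp only [indicator_of_mem h]
      simp
    · simp [indicator_of_notMem h]

lemma completedRiemannZeta₀_conj (s : ℂ) :
    completedRiemannZeta₀ (starRingEnd ℂ s) = starRingEnd ℂ (completedRiemannZeta₀ s) := by
  rw [completedRiemannZeta₀_eq_mellin, completedRiemannZeta₀_eq_mellin]
  rw [map_div₀]
  congr 1
  · unfold mellin
    rw [← integral_conj]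
    apply setIntegral_congr_fun measurableSet_Ioi
    intro t ht
    simp only [smul_eq_mul, map_mul]
    rw [f_modif_conj]
    congr 1
    have ht0 : (0:ℝ) < t := ht
    have h2 : (starRingEnd ℂ) 2 = 2 := map_ofNat _ 2
    have hc : (starRingEnd ℂ) s / 2 - 1 = (starRingEnd ℂ) (s / 2 - 1) := by
      simp [map_div₀, h2]
    rw [hc, cpow_conj]
    · simp
    · rw [arg_ofReal_of_nonneg ht0.le]
      exact Real.pi_pos.ne
  · exact (Complex.conj_ofReal 2).symm

lemma xi_conj (s : ℂ) : xi (starRingEnd ℂ s) = starRingEnd ℂ (xi s) := by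
  unfold xi
  rw [completedRiemannZeta₀_conj]
  simp

end Pool.Agent.Helper57.Zeta
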