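import Pool.Agent.Helper57.Zeta.CircleAvg
import Pool.Agent.Helper57.PairDefs

open Complex Filter Topology MeasureTheory Set Metric
open Pool.Agent.Helper57.PC

namespace Pool.Agent.Helper57.Zeta

lemma xi_two_ne : xi 2 ≠ 0 := xi_ne_zero_of_one_le_re (by norm_num)

lemma ncount_lower (ε : ℝ) (hε : 0 < ε) (hε1 : ε < 1) : ∃ R₀ : ℝ, ∀ R : ℝ, R₀ ≤ R →
    (1 - ε) * (R / Real.pi * Real.log R) ≤ ncount xi 2 R := by
  set h : ℝ := ε / 2 with hh
  have h0 : 0 < h := by positivity
  have h1 : h < 1 := by rw [hh]; linarith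
  set δ : ℝ := h ^ 2 / 2 with hδ
  have hδ0 : 0 < δ := by positivity
  have hδ1 : δ < 1 := by rw [hδ]; nlinarith
  obtain ⟨C1, hC1, hU⟩ := Av_upper
  obtain ⟨C2, hC2, R2, hL⟩ := Av_lower δ hδ0 hδ1
  -- the error constant
  set C3 : ℝ := (C1 + C2) / h with hC3
  have hC30 : 0 ≤ C3 := by positivity
  have hlog : Tendsto Real.log atTop atTop := Real.tendsto_log_atTop
  obtain ⟨R3, hR3⟩ := (hlog.eventually_ge_atTop (C3 * Real.pi / h)).exists_forall_of_atTop
  set lam : ℝ := Real.exp h with hlam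
  have hlam1 : 1 < lam := by rw [hlam]; exact Real.one_lt_exp_iff.mpr h0
  have hlampos : 0 < lam := by linarith
  refine ⟨max (max R2 R3) (max (5 * lam) 5), ?_⟩
  intro R hR
  have hRR2 : R2 ≤ R := le_trans (le_trans (le_max_left _ _) (le_max_left _ _)) hR
  have hRR3 : R3 ≤ R := le_trans (le_trans (le_max_right _ _) (le_max_left _ _)) hR
  have hRl : 5 * lam ≤ R := le_trans (le_trans (le_max_left _ _) (le_max_right _ _)) hR
  have hR5 : 5 ≤ R := le_trans (le_trans (le_max_right _ _) (le_max_right _ _)) hR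
  have hR0 : 0 < R := by linarith
  have hlogR := hR3 R hRR3
  have hlogR0 : 0 < Real.log R := Real.log_pos (by linarith)
  have hr5 : 5 ≤ R / lam := by rw [le_div_iff₀ hlampos]; exact hRl
  have hrR : R / lam ≤ R := div_le_self hR0.le hlam1.le
  have hJ := (jensen_compare differentiable_xi xi_two_ne (r := R / lam) (R := R) (by positivity) hrR).2
  have hlr : Real.log (R / (R / lam)) = h := by
    have : R / (R / lam) = lam := by field_simp
    rw [this, hlam, Real.log_exp]
  rw [hlr] at hJ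
  have hU' := hU (R / lam) hr5
  have hL' := hL R hRR2
  unfold Av at hU' hL'
  have hpi := Real.pi_pos
  -- upper for R/lam
  have hlogr : Real.log (R / lam) ≤ Real.log R := Real.log_le_log (by positivity) hrR
  have hU2 : R / lam / Real.pi * Real.log (R / lam) ≤ R / lam / Real.pi * Real.log R :=
    mul_le_mul_of_nonneg_left hlogr (by positivity)
  have hinv : R / lam ≤ R * (1 - h + h ^ 2 / 2) := by
    rw [div_eq_mul_inv]
    apply mul_le_mul_of_nonneg_left _ hR0.le
    rw [hlam, ← Real.exp_neg]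
    -- exp(-h) ≤ 1 - h + h²/2
    have h3 : Real.exp h ≥ 1 + h + h ^ 2 / 2 := Real.quadratic_le_exp_of_nonneg h0.le
    have h4 : Real.exp (-h) * Real.exp h = 1 := by rw [← Real.exp_add]; simp
    have h5 : 0 < Real.exp (-h) := Real.exp_pos _
    have h6 : (1 - h + h ^ 2 / 2) * (1 + h + h ^ 2 / 2) = 1 + h ^ 4 / 4 := by ring
    by_contra hcon
    push Not at hcon
    have h7 : 0 < 1 - h + h ^ 2 / 2 := by nlinarith
    have h8 : (1 - h + h ^ 2 / 2) * (1 + h + h ^ 2 / 2) < Real.exp (-h) * Real.exp h := by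
      calc _ ≤ (1 - h + h ^ 2 / 2) * Real.exp h := mul_le_mul_of_nonneg_left h3 h7.le
        _ < _ := mul_lt_mul_of_pos_right hcon (Real.exp_pos _)
    rw [h6, h4] at h8
    nlinarith [pow_pos h0 4]
  have hU3 : R / lam / Real.pi * Real.log R ≤ (1 - h + h ^ 2 / 2) * (R / Real.pi * Real.log R) := by
    calc R / lam / Real.pi * Real.log R ≤ (R * (1 - h + h ^ 2 / 2)) / Real.pi * Real.log R := by
          apply mul_le_mul_of_nonneg_right _ hlogR0.le
          exact div_le_div_of_nonneg_right hinv hpi.le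
      _ = _ := by ring
  have hC1R : C1 * (R / lam) ≤ C1 * R := mul_le_mul_of_nonneg_left hrR hC1
  set X : ℝ := R / Real.pi * Real.log R with hX
  have hL2 : (1 - δ) / Real.pi * (R * Real.log R) = (1 - δ) * X := by rw [hX]; ring
  rw [hL2] at hL'
  have hmain : (h - h ^ 2) * X - (C1 + C2) * R ≤ ncount xi 2 R * h := by
    have : (h - h ^ 2) * X = (1 - δ) * X - (1 - h + h ^ 2 / 2) * X := by rw [hδ]; ring
    rw [this]; linarith
  have hXR : (C1 + C2) * R ≤ h ^ 2 * X := by
    have h7 : C3 * Real.pi ≤ h * Real.log R := by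
      rw [div_le_iff₀ h0] at hlogR; linarith
    have h8 : C1 + C2 = C3 * h := by rw [hC3]; field_simp
    rw [h8, hX]
    have h9 : C3 ≤ h * Real.log R / Real.pi := by rw [le_div_iff₀ hpi]; exact h7
    calc C3 * h * R ≤ (h * Real.log R / Real.pi) * h * R := by
          apply mul_le_mul_of_nonneg_right _ hR0.le
          exact mul_le_mul_of_nonneg_right h9 h0.le
      _ = _ := by ring
  have h10 : (h - 2 * h ^ 2) * X ≤ ncount xi 2 R * h := by
    have : (h - 2 * h ^ 2) * X = (h - h ^ 2) * X - h ^ 2 * X := by ring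
    rw [this]; linarith
  have h11 : h * ((1 - ε) * X) ≤ h * ncount xi 2 R := by
    have : h * ((1 - ε) * X) = (h - 2 * h ^ 2) * X := by rw [hh]; ring
    rw [this]; linarith
  exact le_of_mul_le_mul_left h11 h0

lemma ncount_upper (ε : ℝ) (hε : 0 < ε) (hε1 : ε < 1) : ∃ R₀ : ℝ, ∀ R : ℝ, R₀ ≤ R →
    ncount xi 2 R ≤ (1 + ε) * (R / Real.pi * Real.log R) := by
  set h : ℝ := ε / 8 with hh
  have h0 : 0 < h := by positivity
  have h1 : h < 1 / 8 := by rw [hh]; linarith
  set δ : ℝ := h ^ 2 with hδ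
  have hδ0 : 0 < δ := by positivity
  have hδ1 : δ < 1 := by rw [hδ]; nlinarith
  obtain ⟨C1, hC1, hU⟩ := Av_upper
  obtain ⟨C2, hC2, R2, hL⟩ := Av_lower δ hδ0 hδ1
  set lam : ℝ := Real.exp h with hlam
  have hlam1 : 1 < lam := by rw [hlam]; exact Real.one_lt_exp_iff.mpr h0
  have hlampos : 0 < lam := by linarith
  have hlam2 : lam ≤ 1 + h + h ^ 2 := by
    have := Real.abs_exp_sub_one_sub_id_le (x := h) (by rw [abs_of_pos h0]; linarith)
    rw [abs_le] at this
    rw [hlam]; linarith [this.2]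
  have hlam3 : lam ≤ 2 := by nlinarith
  set C3 : ℝ := (2 + 2 * C1 + C2) / h with hC3
  have hC30 : 0 ≤ C3 := by positivity
  have hlog : Tendsto Real.log atTop atTop := Real.tendsto_log_atTop
  obtain ⟨R3, hR3⟩ := (hlog.eventually_ge_atTop (C3 * Real.pi / h)).exists_forall_of_atTop
  refine ⟨max (max R2 R3) 5, ?_⟩
  intro R hR
  have hRR2 : R2 ≤ R := le_trans (le_trans (le_max_left _ _) (le_max_left _ _)) hR
  have hRR3 : R3 ≤ R := le_trans (le_trans (le_max_right _ _) (le_max_left _ _)) hR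
  have hR5 : 5 ≤ R := le_trans (le_max_right _ _) hR
  have hR0 : 0 < R := by linarith
  have hlogR := hR3 R hRR3
  have hlogR0 : 0 < Real.log R := Real.log_pos (by linarith)
  have hrR : R ≤ lam * R := by nlinarith
  have hJ := (jensen_compare differentiable_xi xi_two_ne (r := R) (R := lam * R) (by positivity) hrR).1
  have hlr : Real.log (lam * R / R) = h := by
    have : lam * R / R = lam := by field_simp
    rw [this, hlam, Real.log_exp]
  rw [hlr] at hJ
  have hU' := hU (lam * R) (by linarith)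
  have hL' := hL R hRR2
  unfold Av at hU' hL'
  have hpi := Real.pi_pos
  have hpi3 := Real.pi_gt_three
  set X : ℝ := R / Real.pi * Real.log R with hX
  have hX0 : 0 ≤ X := by rw [hX]; positivity
  have hU2 : lam * R / Real.pi * Real.log (lam * R) ≤ lam * X + 2 * R := by
    rw [Real.log_mul hlampos.ne' hR0.ne', hlam, Real.log_exp, ← hlam]
    have e : lam * R / Real.pi * (h + Real.log R) = lam * X + lam * h * R / Real.pi := by
      rw [hX]; ring
    rw [e]
    have h4 : lam * h * R / Real.pi ≤ 2 * R := by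
      rw [div_le_iff₀ hpi]
      have h5 : lam * h ≤ 1 := by nlinarith
      nlinarith
    linarith
  have hL2 : (1 - δ) / Real.pi * (R * Real.log R) = (1 - δ) * X := by rw [hX]; ring
  rw [hL2] at hL'
  have hC1R : C1 * (lam * R) ≤ 2 * C1 * R := by
    nlinarith [mul_nonneg hC1 hR0.le]
  have hmain : ncount xi 2 R * h ≤ (lam - 1 + δ) * X + (2 + 2 * C1 + C2) * R := by
    linarith
  have hXR : (2 + 2 * C1 + C2) * R ≤ h ^ 2 * X := by
    have h7 : C3 * Real.pi ≤ h * Real.log R := by
      rw [div_le_iff₀ h0] at hlogR; linarith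
    have h8 : 2 + 2 * C1 + C2 = C3 * h := by rw [hC3]; field_simp
    rw [h8, hX]
    have h9 : C3 ≤ h * Real.log R / Real.pi := by rw [le_div_iff₀ hpi]; exact h7
    calc C3 * h * R ≤ (h * Real.log R / Real.pi) * h * R := by
          apply mul_le_mul_of_nonneg_right _ hR0.le
          exact mul_le_mul_of_nonneg_right h9 h0.le
      _ = _ := by ring
  have h10 : ncount xi 2 R * h ≤ (h + 3 * h ^ 2) * X := by
    have h12 : (lam - 1 + δ) * X ≤ (h + 2 * h ^ 2) * X := by
      apply mul_le_mul_of_nonneg_right _ hX0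
      rw [hδ]; linarith
    have h13 : (h + 3 * h ^ 2) * X = (h + 2 * h ^ 2) * X + h ^ 2 * X := by ring
    rw [h13]
    linarith
  have h11 : h * ncount xi 2 R ≤ h * ((1 + ε) * X) := by
    have h14 : h * ((1 + ε) * X) = (h + 3 * h ^ 2) * X + 5 * (h ^ 2 * X) := by rw [hh]; ring
    rw [h14]
    have h15 := mul_nonneg (sq_nonneg h) hX0
    linarith
  exact le_of_mul_le_mul_left h11 h0

/-! ### from discs to ordinates -/

lemma isNontrivialZero_iff {ρ : ℂ} : IsNontrivialZero ρ ↔ xi ρ = 0 := by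
  rw [xi_eq_zero_iff]
  unfold IsNontrivialZero
  tauto

lemma mult_eq {ρ : ℂ} (h : IsNontrivialZero ρ) : mult ρ = analyticOrderNatAt xi ρ := by
  unfold mult analyticOrderNatAt
  rw [analyticOrderAt_xi h.2.1 h.2.2]

lemma order_one_sub (ρ : ℂ) : analyticOrderNatAt xi (1 - ρ) = analyticOrderNatAt xi ρ := by
  unfold analyticOrderNatAt
  congr 1
  have h1 : (fun z => xi (1 - z)) = xi := by ext z; exact xi_one_sub z
  have hg : AnalyticAt ℂ (fun z : ℂ => 1 - z) ρ := by fun_prop
  have h2 := analyticOrderAt_comp_of_deriv_ne_zero (f := xi) hg (by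
    have : deriv (fun z : ℂ => 1 - z) ρ = -1 := by
      simp
    rw [this]; norm_num)
  have h3 : xi ∘ (fun z : ℂ => 1 - z) = xi := h1
  rw [h3] at h2
  exact h2.symm

/-- all nontrivial zeros with |γ| ≤ T -/
def zsym (T : ℝ) : Set ℂ := {ρ | xi ρ = 0 ∧ |ρ.im| ≤ T}

lemma zsym_subset (T : ℝ) : zsym T ⊆ zset xi 2 (T + 2) := by
  intro ρ hρ
  refine ⟨hρ.1, ?_⟩
  have h := xi_eq_zero_iff.mp hρ.1
  have h1 := Complex.norm_le_abs_re_add_abs_im (ρ - 2)
  have h2 : (ρ - 2).re = ρ.re - 2 := by simp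
  have h3 : (ρ - 2).im = ρ.im := by simp
  rw [h2, h3] at h1
  have h4 : |ρ.re - 2| ≤ 2 := by rw [abs_le]; constructor <;> linarith [h.1, h.2.1]
  linarith [hρ.2]

lemma zset_subset_zsym (R : ℝ) : zset xi 2 R ⊆ zsym R := by
  intro ρ hρ
  refine ⟨hρ.1, ?_⟩
  have := Complex.abs_im_le_norm (ρ - 2)
  have h3 : (ρ - 2).im = ρ.im := by simp
  rw [h3] at this
  exact this.trans hρ.2

lemma zsym_finite (T : ℝ) : (zsym T).Finite :=
  (zset_finite differentiable_xi xi_two_ne 2 (T + 2)).subset (zsym_subset T)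

lemma zerosUpTo_subset (T : ℝ) : zerosUpTo T ⊆ zsym T := by
  intro ρ hρ
  exact ⟨isNontrivialZero_iff.mp hρ.1, by rw [abs_of_nonneg hρ.2.1]; exact hρ.2.2⟩

lemma zerosUpTo_finite (T : ℝ) : (zerosUpTo T).Finite := (zsym_finite T).subset (zerosUpTo_subset T)

/-- the finite set of zeros with ordinates in [0,T] -/
noncomputable def Zf (T : ℝ) : Finset ℂ := (zerosUpTo_finite T).toFinset

lemma mem_Zf {T : ℝ} {ρ : ℂ} : ρ ∈ Zf T ↔ IsNontrivialZero ρ ∧ 0 ≤ ρ.im ∧ ρ.im ≤ T := by
  unfold Zf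
  rw [Set.Finite.mem_toFinset]; rfl

/-- N(T) with multiplicity -/
noncomputable def NT (T : ℝ) : ℝ := ∑ ρ ∈ Zf T, (mult ρ : ℝ)

lemma NT_nonneg (T : ℝ) : 0 ≤ NT T := Finset.sum_nonneg fun _ _ => Nat.cast_nonneg _

lemma sum_zsym_le (T : ℝ) :
    ∑ u ∈ (zsym_finite T).toFinset, (analyticOrderNatAt xi u : ℝ) ≤ 2 * NT T := by
  classical
  set S := (zsym_finite T).toFinset with hS
  have h1 : ∑ u ∈ S.filter (fun u => 0 ≤ u.im), (analyticOrderNatAt xi u : ℝ) = NT T := by
    unfold NT
    apply Finset.sum_congr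
    · ext u
      rw [Finset.mem_filter, mem_Zf, hS, Set.Finite.mem_toFinset, isNontrivialZero_iff]
      constructor
      · rintro ⟨⟨h1, h2⟩, h3⟩
        exact ⟨h1, h3, (le_abs_self _).trans h2⟩
      · rintro ⟨h1, h2, h3⟩
        exact ⟨⟨h1, by rw [abs_of_nonneg h2]; exact h3⟩, h2⟩
    · intro u hu
      rw [mem_Zf] at hu
      rw [mult_eq hu.1]
  have h2 : ∑ u ∈ S.filter (fun u => ¬ 0 ≤ u.im), (analyticOrderNatAt xi u : ℝ) ≤ NT T := by
    rw [← h1]
    have h3 : ∑ u ∈ S.filter (fun u => ¬ 0 ≤ u.im), (analyticOrderNatAt xi u : ℝ) =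
        ∑ u ∈ (S.filter (fun u => ¬ 0 ≤ u.im)).image (fun u => 1 - u),
          (analyticOrderNatAt xi u : ℝ) := by
      rw [Finset.sum_image]
      · apply Finset.sum_congr rfl
        intro u _
        rw [order_one_sub]
      · intro a _ b _ hab
        simpa using hab
    rw [h3]
    apply Finset.sum_le_sum_of_subset_of_nonneg
    · intro v hv
      rw [Finset.mem_image] at hv
      obtain ⟨u, hu, rfl⟩ := hv
      rw [Finset.mem_filter, hS, Set.Finite.mem_toFinset] at hu
      rw [Finset.mem_filter, hS, Set.Finite.mem_toFinset]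
      obtain ⟨⟨h4, h5⟩, h6⟩ := hu
      have h7 : (1 - u).im = -u.im := by simp
      refine ⟨⟨?_, ?_⟩, ?_⟩
      · rw [xi_one_sub]; exact h4
      · rw [h7, abs_neg]; exact h5
      · rw [h7]; linarith [not_le.mp h6]
    · intro u _ _
      positivity
  rw [← Finset.sum_filter_add_sum_filter_not S (fun u => 0 ≤ u.im)]
  linarith

lemma NT_le_sum (T : ℝ) :
    NT T ≤ ∑ u ∈ (zsym_finite T).toFinset, (analyticOrderNatAt xi u : ℝ) := by
  unfold NT
  have h1 : ∑ u ∈ Zf T, (mult u : ℝ) = ∑ u ∈ Zf T, (analyticOrderNatAt xi u : ℝ) := by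
    apply Finset.sum_congr rfl
    intro u hu
    rw [mem_Zf] at hu
    rw [mult_eq hu.1]
  rw [h1]
  apply Finset.sum_le_sum_of_subset_of_nonneg
  · intro u hu
    rw [Set.Finite.mem_toFinset]
    exact zerosUpTo_subset T (by unfold Zf at hu; rwa [Set.Finite.mem_toFinset] at hu)
  · intro u _ _; positivity

/-- twice the count is at most the symmetric count plus the zeros of height zero -/
lemma two_NT_le (T : ℝ) :
    2 * NT T ≤ ∑ u ∈ (zsym_finite T).toFinset, (analyticOrderNatAt xi u : ℝ) + NT 0 := by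
  classical
  set S := (zsym_finite T).toFinset with hS
  have h1 : ∑ u ∈ S.filter (fun u => 0 ≤ u.im), (analyticOrderNatAt xi u : ℝ) = NT T := by
    unfold NT
    apply Finset.sum_congr
    · ext u
      rw [Finset.mem_filter, mem_Zf, hS, Set.Finite.mem_toFinset, isNontrivialZero_iff]
      constructor
      · rintro ⟨⟨h1, h2⟩, h3⟩
        exact ⟨h1, h3, (le_abs_self _).trans h2⟩
      · rintro ⟨h1, h2, h3⟩
        exact ⟨⟨h1, by rw [abs_of_nonneg h2]; exact h3⟩, h2⟩
    · intro u hu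
      rw [mem_Zf] at hu
      rw [mult_eq hu.1]
  have h2 : NT T ≤ ∑ u ∈ S.filter (fun u => ¬ 0 ≤ u.im), (analyticOrderNatAt xi u : ℝ) + NT 0 := by
    have h3 : NT T = ∑ u ∈ (Zf T).filter (fun u => u.im = 0), (mult u : ℝ) +
        ∑ u ∈ (Zf T).filter (fun u => ¬ u.im = 0), (mult u : ℝ) := by
      unfold NT
      rw [Finset.sum_filter_add_sum_filter_not]
    have h4 : ∑ u ∈ (Zf T).filter (fun u => u.im = 0), (mult u : ℝ) ≤ NT 0 := by
      unfold NT
      apply Finset.sum_le_sum_of_subset_of_nonneg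
      · intro u hu
        rw [Finset.mem_filter, mem_Zf] at hu
        rw [mem_Zf]
        exact ⟨hu.1.1, by rw [hu.2], by rw [hu.2]⟩
      · intro u _ _; positivity
    have h5 : ∑ u ∈ (Zf T).filter (fun u => ¬ u.im = 0), (mult u : ℝ) ≤
        ∑ u ∈ S.filter (fun u => ¬ 0 ≤ u.im), (analyticOrderNatAt xi u : ℝ) := by
      have h6 : ∑ u ∈ (Zf T).filter (fun u => ¬ u.im = 0), (mult u : ℝ) =
          ∑ u ∈ ((Zf T).filter (fun u => ¬ u.im = 0)).image (fun u => 1 - u),
            (analyticOrderNatAt xi u : ℝ) := by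
        rw [Finset.sum_image]
        · apply Finset.sum_congr rfl
          intro u hu
          rw [Finset.mem_filter, mem_Zf] at hu
          rw [order_one_sub, mult_eq hu.1.1]
        · intro a _ b _ hab
          simpa using hab
      rw [h6]
      apply Finset.sum_le_sum_of_subset_of_nonneg
      · intro v hv
        rw [Finset.mem_image] at hv
        obtain ⟨u, hu, rfl⟩ := hv
        rw [Finset.mem_filter, mem_Zf] at hu
        rw [Finset.mem_filter, hS, Set.Finite.mem_toFinset]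
        obtain ⟨⟨h7, h8, h9⟩, h10⟩ := hu
        have h11 : (1 - u).im = -u.im := by simp
        refine ⟨⟨?_, ?_⟩, ?_⟩
        · rw [xi_one_sub]; exact isNontrivialZero_iff.mp h7
        · rw [h11, abs_neg, abs_of_nonneg h8]; exact h9
        · rw [h11]
          have : 0 < u.im := lt_of_le_of_ne h8 (Ne.symm h10)
          linarith
      · intro u _ _; positivity
    linarith
  rw [← Finset.sum_filter_add_sum_filter_not S (fun u => 0 ≤ u.im)]
  linarith

/-- N(T) ≥ (1-ε) (T/2π) log T -/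
theorem NT_lower (ε : ℝ) (hε : 0 < ε) : ∃ T₀ : ℝ, ∀ T : ℝ, T₀ ≤ T →
    (1 - ε) * (T * Real.log T / (2 * Real.pi)) ≤ NT T := by
  rcases le_or_gt 1 ε with h1 | h1
  · refine ⟨1, fun T hT => ?_⟩
    have h2 : 0 ≤ T * Real.log T / (2 * Real.pi) := by
      have := Real.log_nonneg hT
      have := Real.pi_pos
      positivity
    have := NT_nonneg T
    nlinarith
  obtain ⟨R₀, hR₀⟩ := ncount_lower ε hε h1
  refine ⟨R₀, fun T hT => ?_⟩
  have h2 := hR₀ T hT
  have h3 : ncount xi 2 T ≤ 2 * NT T := by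
    rw [ncount_eq differentiable_xi xi_two_ne 2 T]
    refine le_trans ?_ (sum_zsym_le T)
    apply Finset.sum_le_sum_of_subset_of_nonneg
    · intro u hu
      rw [Set.Finite.mem_toFinset] at hu ⊢
      exact zset_subset_zsym T hu
    · intro u _ _; positivity
  have h4 : (1 - ε) * (T / Real.pi * Real.log T) =
      2 * ((1 - ε) * (T * Real.log T / (2 * Real.pi))) := by
    field_simp
  rw [h4] at h2
  linarith

/-- N(T) ≤ (1+ε) (T/2π) log T -/
theorem NT_upper (ε : ℝ) (hε : 0 < ε) : ∃ T₀ : ℝ, ∀ T : ℝ, T₀ ≤ T →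
    NT T ≤ (1 + ε) * (T * Real.log T / (2 * Real.pi)) := by
  set e : ℝ := min (ε / 8) (1 / 2) with he
  have he0 : 0 < e := by rw [he]; positivity
  have he1 : e < 1 := lt_of_le_of_lt (min_le_right _ _) (by norm_num)
  have he2 : e ≤ ε / 8 := min_le_left _ _
  have he3 : e ≤ 1 / 2 := min_le_right _ _
  obtain ⟨R₀, hR₀⟩ := ncount_upper e he0 he1
  set c : ℝ := NT 0 with hc
  have hc0 : 0 ≤ c := NT_nonneg 0
  refine ⟨max (max (R₀ + 2) 5) (max (2 / e) (Real.pi * c / e)), fun T hT => ?_⟩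
  have hT1 : R₀ + 2 ≤ T := le_trans (le_trans (le_max_left _ _) (le_max_left _ _)) hT
  have hT2 : 5 ≤ T := le_trans (le_trans (le_max_right _ _) (le_max_left _ _)) hT
  have hT3 : 2 / e ≤ T := le_trans (le_trans (le_max_left _ _) (le_max_right _ _)) hT
  have hT4 : Real.pi * c / e ≤ T := le_trans (le_trans (le_max_right _ _) (le_max_right _ _)) hT
  have hT0 : 0 < T := by linarith
  have h1 := two_NT_le T
  have h2 : ∑ u ∈ (zsym_finite T).toFinset, (analyticOrderNatAt xi u : ℝ) ≤ ncount xi 2 (T + 2) := by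
    rw [ncount_eq differentiable_xi xi_two_ne 2 (T + 2)]
    apply Finset.sum_le_sum_of_subset_of_nonneg
    · intro u hu
      rw [Set.Finite.mem_toFinset] at hu ⊢
      exact zsym_subset T hu
    · intro u _ _; positivity
  have h3 := hR₀ (T + 2) (by linarith)
  have hlogT : 1 ≤ Real.log T := by
    have h5 : Real.log (Real.exp 1) ≤ Real.log T := by
      apply Real.log_le_log (Real.exp_pos 1)
      have := Real.exp_one_lt_d9; linarith
    rwa [Real.log_exp] at h5
  have hlog2 : Real.log (T + 2) ≤ (1 + e) * Real.log T := by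
    have h6 : T + 2 ≤ T * (1 + e) := by
      rw [div_le_iff₀ he0] at hT3; linarith
    have h7 : Real.log (T + 2) ≤ Real.log (T * (1 + e)) := Real.log_le_log (by linarith) h6
    rw [Real.log_mul hT0.ne' (by linarith)] at h7
    have h8 : Real.log (1 + e) ≤ e := by
      have := Real.log_le_sub_one_of_pos (show 0 < 1 + e by linarith); linarith
    nlinarith
  have hpi := Real.pi_pos
  have h9 : (T + 2) / Real.pi * Real.log (T + 2) ≤ (1 + e) ^ 2 * (T / Real.pi * Real.log T) := by
    have h6 : T + 2 ≤ T * (1 + e) := by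
      rw [div_le_iff₀ he0] at hT3; linarith
    have h10 : (T + 2) / Real.pi ≤ T * (1 + e) / Real.pi := div_le_div_of_nonneg_right h6 hpi.le
    have h11 : 0 ≤ Real.log (T + 2) := Real.log_nonneg (by linarith)
    calc (T + 2) / Real.pi * Real.log (T + 2) ≤ T * (1 + e) / Real.pi * ((1 + e) * Real.log T) := by
          apply mul_le_mul h10 hlog2 h11 (by positivity)
      _ = _ := by ring
  have h12 : c ≤ e * (T / Real.pi * Real.log T) := by
    rw [div_le_iff₀ he0] at hT4
    have h13 : c ≤ T * e / Real.pi := by rw [le_div_iff₀ hpi]; linarith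
    calc c ≤ T * e / Real.pi * 1 := by linarith
      _ ≤ T * e / Real.pi * Real.log T := by
          apply mul_le_mul_of_nonneg_left hlogT (by positivity)
      _ = _ := by ring
  set X : ℝ := T / Real.pi * Real.log T with hX
  have hX0 : 0 ≤ X := by rw [hX]; positivity
  have h14 : T * Real.log T / (2 * Real.pi) = X / 2 := by rw [hX]; field_simp
  rw [h14]
  have h15 : 2 * NT T ≤ (1 + e) * ((1 + e) ^ 2 * X) + e * X := by
    have h16 : (1 + e) * ((T + 2) / Real.pi * Real.log (T + 2)) ≤ (1 + e) * ((1 + e) ^ 2 * X) :=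
      mul_le_mul_of_nonneg_left h9 (by linarith)
    linarith
  have h17 : (1 + e) * (1 + e) ^ 2 + e ≤ 1 + ε := by nlinarith [sq_nonneg e]
  have h18 : (1 + e) * ((1 + e) ^ 2 * X) + e * X ≤ (1 + ε) * X := by
    have : (1 + e) * ((1 + e) ^ 2 * X) + e * X = ((1 + e) * (1 + e) ^ 2 + e) * X := by ring
    rw [this]
    exact mul_le_mul_of_nonneg_right h17 hX0
  linarith

end Pool.Agent.Helper57.Zeta
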