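import Mathlib

open Complex Filter Topology MeasureTheory Set Metric

namespace Pool.Agent.Helper57.Zeta

/-- the zeros of f in the closed disc of centre c and radius R -/
def zset (f : ℂ → ℂ) (c : ℂ) (R : ℝ) : Set ℂ := {u | f u = 0 ∧ ‖u - c‖ ≤ R}

variable {f : ℂ → ℂ}

lemma order_ne_top (hf : Differentiable ℂ f) {a : ℂ} (ha : f a ≠ 0) (u : ℂ) :
    analyticOrderAt f u ≠ ⊤ := by
  have h1 : AnalyticOnNhd ℂ f univ := fun z _ => hf.analyticAt z
  apply h1.analyticOrderAt_ne_top_of_isPreconnected isPreconnected_univ (mem_univ a) (mem_univ u)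
  rw [(hf.analyticAt a).analyticOrderAt_eq_zero.mpr ha]
  exact ENat.zero_ne_top

lemma divisor_eq (hf : Differentiable ℂ f) {a : ℂ} (ha : f a ≠ 0) (c : ℂ) (R : ℝ) {u : ℂ}
    (hu : u ∈ closedBall c |R|) :
    MeromorphicOn.divisor f (closedBall c |R|) u = (analyticOrderNatAt f u : ℤ) := by
  have h1 : AnalyticOnNhd ℂ f (closedBall c |R|) := fun z _ => hf.analyticAt z
  rw [MeromorphicOn.AnalyticOnNhd.divisor_apply h1 hu, ← Nat.cast_analyticOrderNatAt (order_ne_top hf ha u)]
  rfl

lemma order_pos_iff (hf : Differentiable ℂ f) {a : ℂ} (ha : f a ≠ 0) (u : ℂ) :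
    analyticOrderNatAt f u ≠ 0 ↔ f u = 0 := by
  constructor
  · exact apply_eq_zero_of_analyticOrderNatAt_ne_zero
  · intro h h0
    have h1 := Nat.cast_analyticOrderNatAt (order_ne_top hf ha u)
    rw [h0] at h1
    have h2 := ((hf.analyticAt u).analyticOrderAt_eq_zero).mp h1.symm
    exact h2 h

lemma zset_finite (hf : Differentiable ℂ f) {a : ℂ} (ha : f a ≠ 0) (c : ℂ) (R : ℝ) :
    (zset f c R).Finite := by
  rcases lt_or_ge R 0 with hR | hR
  · convert Set.finite_empty
    ext u
    simp only [zset, mem_ofPred_eq, mem_empty_iff_false, iff_false, not_and, not_le]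
    intro _
    exact lt_of_lt_of_le hR (norm_nonneg _)
  have h := (MeromorphicOn.divisor f (closedBall c |R|)).finiteSupport (isCompact_closedBall c |R|)
  apply h.subset
  intro u hu
  have hu2 : u ∈ closedBall c |R| := by
    rw [mem_closedBall, dist_eq_norm, abs_of_nonneg hR]; exact hu.2
  rw [Function.mem_support, divisor_eq hf ha c R hu2]
  exact_mod_cast (order_pos_iff hf ha u).mpr hu.1

lemma jensen_formula (hf : Differentiable ℂ f) {c : ℂ} (hc : f c ≠ 0) {R : ℝ} (hR : 0 < R) :
    Real.circleAverage (fun z => Real.log ‖f z‖) c R =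
      ∑ u ∈ (zset_finite hf hc c R).toFinset,
        (analyticOrderNatAt f u : ℝ) * Real.log (R / ‖u - c‖) + Real.log ‖f c‖ := by
  have h1 : AnalyticOnNhd ℂ f (closedBall c |R|) := fun z _ => hf.analyticAt z
  rw [h1.circleAverage_log_norm hR.ne' hc]
  congr 1
  rw [finsum_eq_sum_of_support_subset (s := (zset_finite hf hc c R).toFinset)]
  · apply Finset.sum_congr rfl
    intro u hu
    rw [Set.Finite.mem_toFinset] at hu
    have hu2 : u ∈ closedBall c |R| := by
      rw [mem_closedBall, dist_eq_norm, abs_of_nonneg hR.le]; exact hu.2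
    rw [divisor_eq hf hc c R hu2, norm_sub_rev c u, div_eq_mul_inv]
    push_cast
    rfl
  · intro u hu
    rw [Function.mem_support] at hu
    have hd : MeromorphicOn.divisor f (closedBall c |R|) u ≠ 0 := by
      intro h0; apply hu; rw [h0]; simp
    have hu2 : u ∈ closedBall c |R| :=
      (MeromorphicOn.divisor f (closedBall c |R|)).supportWithinDomain hd
    rw [Finset.mem_coe, Set.Finite.mem_toFinset]
    rw [divisor_eq hf hc c R hu2] at hd
    have hd' : analyticOrderNatAt f u ≠ 0 := by exact_mod_cast hd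
    refine ⟨(order_pos_iff hf hc u).mp hd', ?_⟩
    rw [mem_closedBall, dist_eq_norm, abs_of_nonneg hR.le] at hu2
    exact hu2

/-- number of zeros in the disc, with multiplicity -/
noncomputable def ncount (f : ℂ → ℂ) (c : ℂ) (R : ℝ) : ℝ :=
  ∑ᶠ u ∈ zset f c R, (analyticOrderNatAt f u : ℝ)

lemma ncount_eq (hf : Differentiable ℂ f) {a : ℂ} (ha : f a ≠ 0) (c : ℂ) (R : ℝ) :
    ncount f c R = ∑ u ∈ (zset_finite hf ha c R).toFinset, (analyticOrderNatAt f u : ℝ) := by
  unfold ncount
  rw [finsum_mem_eq_finite_toFinset_sum _ (zset_finite hf ha c R)]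

lemma ncount_nonneg (f : ℂ → ℂ) (c : ℂ) (R : ℝ) : 0 ≤ ncount f c R := by
  unfold ncount
  apply finsum_nonneg
  intro u
  apply finsum_nonneg
  intro _
  positivity

lemma jensen_lower (hf : Differentiable ℂ f) {c : ℂ} (hc : f c ≠ 0) {R : ℝ} (hR : 0 < R) :
    Real.log ‖f c‖ ≤ Real.circleAverage (fun z => Real.log ‖f z‖) c R := by
  rw [jensen_formula hf hc hR]
  have : 0 ≤ ∑ u ∈ (zset_finite hf hc c R).toFinset,
        (analyticOrderNatAt f u : ℝ) * Real.log (R / ‖u - c‖) := by
    apply Finset.sum_nonneg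
    intro u hu
    rw [Set.Finite.mem_toFinset] at hu
    apply mul_nonneg (Nat.cast_nonneg _)
    apply Real.log_nonneg
    have hne : u ≠ c := by rintro rfl; exact hc hu.1
    have : 0 < ‖u - c‖ := norm_pos_iff.mpr (sub_ne_zero.mpr hne)
    rw [le_div_iff₀ this, one_mul]
    exact hu.2
  linarith

/-- Two-sided comparison between circle averages and the number of zeros. -/
lemma jensen_compare (hf : Differentiable ℂ f) {c : ℂ} (hc : f c ≠ 0) {r R : ℝ} (hr : 0 < r)
    (hrR : r ≤ R) :
    ncount f c r * Real.log (R / r) ≤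
      Real.circleAverage (fun z => Real.log ‖f z‖) c R -
        Real.circleAverage (fun z => Real.log ‖f z‖) c r ∧
    Real.circleAverage (fun z => Real.log ‖f z‖) c R -
        Real.circleAverage (fun z => Real.log ‖f z‖) c r ≤ ncount f c R * Real.log (R / r) := by
  have hR : 0 < R := lt_of_lt_of_le hr hrR
  have hsub : (zset_finite hf hc c r).toFinset ⊆ (zset_finite hf hc c R).toFinset := by
    intro u hu
    rw [Set.Finite.mem_toFinset] at hu ⊢
    exact ⟨hu.1, hu.2.trans hrR⟩
  rw [jensen_formula hf hc hR, jensen_formula hf hc hr, ncount_eq hf hc c r, ncount_eq hf hc c R,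
    Finset.sum_mul, Finset.sum_mul]
  have hlr : 0 ≤ Real.log (R / r) := Real.log_nonneg (by rw [le_div_iff₀ hr]; linarith)
  have hpos : ∀ u ∈ (zset_finite hf hc c R).toFinset, 0 < ‖u - c‖ ∧ ‖u - c‖ ≤ R := by
    intro u hu
    rw [Set.Finite.mem_toFinset] at hu
    have hne : u ≠ c := by rintro rfl; exact hc hu.1
    exact ⟨norm_pos_iff.mpr (sub_ne_zero.mpr hne), hu.2⟩
  -- split the sum over the big disc
  have hsplit : ∀ g : ℂ → ℝ, ∑ u ∈ (zset_finite hf hc c R).toFinset, g u =
      ∑ u ∈ (zset_finite hf hc c r).toFinset, g u +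
      ∑ u ∈ (zset_finite hf hc c R).toFinset \ (zset_finite hf hc c r).toFinset, g u := by
    intro g
    rw [add_comm, Finset.sum_sdiff hsub]
  have e1 : ∑ u ∈ (zset_finite hf hc c R).toFinset,
        (analyticOrderNatAt f u : ℝ) * Real.log (R / ‖u - c‖) -
      ∑ u ∈ (zset_finite hf hc c r).toFinset,
        (analyticOrderNatAt f u : ℝ) * Real.log (r / ‖u - c‖) =
      ∑ u ∈ (zset_finite hf hc c r).toFinset, (analyticOrderNatAt f u : ℝ) * Real.log (R / r) +
      ∑ u ∈ (zset_finite hf hc c R).toFinset \ (zset_finite hf hc c r).toFinset,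
        (analyticOrderNatAt f u : ℝ) * Real.log (R / ‖u - c‖) := by
    rw [hsplit]
    have : ∑ u ∈ (zset_finite hf hc c r).toFinset,
          (analyticOrderNatAt f u : ℝ) * Real.log (R / r) =
        ∑ u ∈ (zset_finite hf hc c r).toFinset,
          (analyticOrderNatAt f u : ℝ) * Real.log (R / ‖u - c‖) -
        ∑ u ∈ (zset_finite hf hc c r).toFinset,
          (analyticOrderNatAt f u : ℝ) * Real.log (r / ‖u - c‖) := by
      rw [← Finset.sum_sub_distrib]
      apply Finset.sum_congr rfl
      intro u hu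
      have hu' := hpos u (hsub hu)
      rw [← mul_sub, Real.log_div hR.ne' hr.ne', Real.log_div hR.ne' hu'.1.ne',
        Real.log_div hr.ne' hu'.1.ne']
      ring
    rw [this]; ring
  have hD : ∀ u ∈ (zset_finite hf hc c R).toFinset \ (zset_finite hf hc c r).toFinset,
      0 ≤ (analyticOrderNatAt f u : ℝ) * Real.log (R / ‖u - c‖) ∧
      (analyticOrderNatAt f u : ℝ) * Real.log (R / ‖u - c‖) ≤
        (analyticOrderNatAt f u : ℝ) * Real.log (R / r) := by
    intro u hu
    rw [Finset.mem_sdiff] at hu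
    have hu' := hpos u hu.1
    have hur : r < ‖u - c‖ := by
      by_contra hcon
      apply hu.2
      rw [Set.Finite.mem_toFinset]
      have h1 := hu.1
      rw [Set.Finite.mem_toFinset] at h1
      exact ⟨h1.1, not_lt.mp hcon⟩
    constructor
    · apply mul_nonneg (Nat.cast_nonneg _)
      apply Real.log_nonneg
      rw [le_div_iff₀ hu'.1]; linarith [hu'.2]
    · apply mul_le_mul_of_nonneg_left _ (Nat.cast_nonneg _)
      apply Real.log_le_log (div_pos hR hu'.1)
      apply div_le_div_of_nonneg_left hR.le hr hur.le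
  have h0 : 0 ≤ ∑ u ∈ (zset_finite hf hc c R).toFinset \ (zset_finite hf hc c r).toFinset,
        (analyticOrderNatAt f u : ℝ) * Real.log (R / ‖u - c‖) :=
    Finset.sum_nonneg fun u hu => (hD u hu).1
  have h1 : ∑ u ∈ (zset_finite hf hc c R).toFinset \ (zset_finite hf hc c r).toFinset,
        (analyticOrderNatAt f u : ℝ) * Real.log (R / ‖u - c‖) ≤
      ∑ u ∈ (zset_finite hf hc c R).toFinset \ (zset_finite hf hc c r).toFinset,
        (analyticOrderNatAt f u : ℝ) * Real.log (R / r) :=
    Finset.sum_le_sum fun u hu => (hD u hu).2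
  have e2 := hsplit fun u => (analyticOrderNatAt f u : ℝ) * Real.log (R / r)
  constructor
  · linarith
  · linarith

lemma circleAverage_log_mono (hf : Differentiable ℂ f) {c : ℂ} (hc : f c ≠ 0) {r R : ℝ} (hr : 0 < r)
    (hrR : r ≤ R) :
    Real.circleAverage (fun z => Real.log ‖f z‖) c r ≤
      Real.circleAverage (fun z => Real.log ‖f z‖) c R := by
  have h := (jensen_compare hf hc hr hrR).1
  have h1 := ncount_nonneg f c r
  have h2 : 0 ≤ Real.log (R / r) := Real.log_nonneg (by rw [le_div_iff₀ hr]; linarith)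
  nlinarith [mul_nonneg h1 h2]

end Pool.Agent.Helper57.Zeta
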