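import Mathlib

open Complex Filter Topology MeasureTheory Set Metric
open scoped ENNReal

namespace Pool.Agent.Helper57.Zeta

/-- polar coordinates around a centre, for nonnegative functions -/
lemma lintegral_ball_polar (f : ℂ → ℝ≥0∞) (hf : Measurable f) (c : ℂ) (R : ℝ) :
    ∫⁻ z in ball c R, f z =
      ∫⁻ r in Ioo 0 R, ENNReal.ofReal r * ∫⁻ θ in Ioo (-Real.pi) Real.pi, f (circleMap c r θ) := by
  have h1 : ∫⁻ z in ball c R, f z = ∫⁻ z, (ball (0:ℂ) R).indicator (fun z => f (c + z)) z := by
    rw [← lintegral_indicator measurableSet_ball]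
    rw [← lintegral_add_left_eq_self _ c]
    congr 1
    ext z
    by_cases hz : z ∈ ball (0:ℂ) R
    · rw [indicator_of_mem hz, indicator_of_mem]
      rw [mem_ball, dist_eq_norm] at hz ⊢
      simpa using hz
    · rw [indicator_of_notMem hz, indicator_of_notMem]
      rw [mem_ball, dist_eq_norm] at hz ⊢
      simpa using hz
  rw [h1, ← Complex.lintegral_comp_polarCoord_symm]
  have h2 : polarCoord.target = Ioi (0:ℝ) ×ˢ Ioo (-Real.pi) Real.pi := rfl
  rw [h2, Measure.volume_eq_prod, ← Measure.prod_restrict]
  have hmeas : Measurable (fun p : ℝ × ℝ => ENNReal.ofReal p.1 •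
      (ball (0:ℂ) R).indicator (fun z => f (c + z)) (Complex.polarCoord.symm p)) := by
    have hc : Measurable (fun p : ℝ × ℝ => Complex.polarCoord.symm p) := by
      have : (fun p : ℝ × ℝ => Complex.polarCoord.symm p) =
          fun p : ℝ × ℝ => (p.1 : ℂ) * (Real.cos p.2 + Real.sin p.2 * Complex.I) := by
        ext p; rw [Complex.polarCoord_symm_apply]
      rw [this]
      fun_prop
    simp only [smul_eq_mul]
    apply Measurable.mul
    · fun_prop
    · have h3 : Measurable ((ball (0:ℂ) R).indicator (fun z => f (c + z))) :=
        (hf.comp (measurable_const_add c)).indicator measurableSet_ball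
      exact h3.comp hc
  rw [lintegral_prod _ hmeas.aemeasurable]
  rw [← lintegral_indicator measurableSet_Ioi, ← lintegral_indicator measurableSet_Ioo]
  congr 1
  ext r
  by_cases hr : r ∈ Ioo 0 R
  · rw [indicator_of_mem hr, indicator_of_mem (show r ∈ Ioi (0:ℝ) from hr.1)]
    simp only [smul_eq_mul]
    rw [lintegral_const_mul']
    · congr 1
      apply lintegral_congr
      intro θ
      rw [indicator_of_mem]
      · congr 1
        rw [Complex.polarCoord_symm_apply, circleMap]
        simp only [Complex.exp_mul_I]
        push_cast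
        rfl
      · rw [mem_ball, dist_zero_right, Complex.norm_polarCoord_symm]
        simp only
        rw [abs_of_pos hr.1]
        exact hr.2
    · exact ENNReal.ofReal_ne_top
  · rw [indicator_of_notMem hr]
    by_cases hr0 : r ∈ Ioi (0:ℝ)
    · rw [indicator_of_mem hr0]
      simp only [smul_eq_mul]
      have hR : R ≤ r := by
        by_contra hcon
        exact hr ⟨hr0, not_le.mp hcon⟩
      have : ∀ θ : ℝ, ENNReal.ofReal r * (ball (0:ℂ) R).indicator (fun z => f (c + z))
          (Complex.polarCoord.symm (r, θ)) = 0 := by
        intro θ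
        rw [indicator_of_notMem, mul_zero]
        rw [mem_ball, dist_zero_right, Complex.norm_polarCoord_symm]
        simp only
        rw [abs_of_pos hr0]
        exact not_lt.mpr hR
      simp only [this, lintegral_zero]
    · rw [indicator_of_notMem hr0]

end Pool.Agent.Helper57.Zeta
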