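import Pool.Agent.Helper57.Zeta.XiUpper
import Pool.Agent.Helper57.Zeta.Jensen
import Pool.Agent.Helper57.Zeta.Polar

open Complex Filter Topology MeasureTheory Set Metric
open scoped ENNReal

namespace Pool.Agent.Helper57.Zeta

variable {f : ℂ → ℂ}

lemma circleIntegrable_log (hf : Differentiable ℂ f) (c : ℂ) (r : ℝ) :
    CircleIntegrable (fun z => Real.log ‖f z‖) c r := by
  apply MeromorphicOn.circleIntegrable_log_norm
  exact fun z _ => (hf.analyticAt z).meromorphicAt

lemma circleIntegrable_posLog (hf : Differentiable ℂ f) (c : ℂ) (r : ℝ) :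
    CircleIntegrable (fun z => Real.posLog ‖f z‖) c r := by
  apply MeromorphicOn.circleIntegrable_posLog_norm
  exact fun z _ => (hf.analyticAt z).meromorphicAt

lemma lintegral_circle_neglog (hf : Differentiable ℂ f) (c : ℂ) (r : ℝ) :
    ∫⁻ θ in Ioo (-Real.pi) Real.pi, ENNReal.ofReal (Real.posLog ‖f (circleMap c r θ)‖⁻¹) =
      ENNReal.ofReal (2 * Real.pi * (Real.circleAverage (fun z => Real.posLog ‖f z‖) c r -
        Real.circleAverage (fun z => Real.log ‖f z‖) c r)) := by
  have h1 := circleIntegrable_log hf c r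
  have h2 := circleIntegrable_posLog hf c r
  have hpt : ∀ x : ℝ, Real.posLog x⁻¹ = Real.posLog x - Real.log x := by
    intro x; have := Real.posLog_sub_posLog_inv (x := x); linarith
  have hper : Function.Periodic (fun θ => Real.posLog ‖f (circleMap c r θ)‖⁻¹) (2 * Real.pi) := by
    intro θ
    simp only
    rw [periodic_circleMap c r θ]
  have hii : IntervalIntegrable (fun θ => Real.posLog ‖f (circleMap c r θ)‖⁻¹) volume 0
      (2 * Real.pi) := by
    have : (fun θ => Real.posLog ‖f (circleMap c r θ)‖⁻¹) =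
        fun θ => Real.posLog ‖f (circleMap c r θ)‖ - Real.log ‖f (circleMap c r θ)‖ := by
      ext θ; rw [hpt]
    rw [this]
    exact IntervalIntegrable.sub h2 h1
  have hii2 : IntervalIntegrable (fun θ => Real.posLog ‖f (circleMap c r θ)‖⁻¹) volume (-Real.pi)
      Real.pi := by
    apply hper.intervalIntegrable₀ (by positivity) hii
  have hint : IntegrableOn (fun θ => Real.posLog ‖f (circleMap c r θ)‖⁻¹)
      (Ioo (-Real.pi) Real.pi) := by
    rw [intervalIntegrable_iff_integrableOn_Ioo_of_le (by linarith [Real.pi_pos])] at hii2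
    exact hii2
  rw [← ofReal_integral_eq_lintegral_ofReal hint]
  · congr 1
    rw [← integral_Ioc_eq_integral_Ioo, ← intervalIntegral.integral_of_le (by linarith [Real.pi_pos])]
    have h3 := hper.intervalIntegral_add_eq (-Real.pi) 0
    rw [show -Real.pi + 2 * Real.pi = Real.pi by ring, zero_add] at h3
    rw [h3]
    rw [Real.circleAverage_def, Real.circleAverage_def]
    simp only [smul_eq_mul]
    rw [← mul_sub, ← intervalIntegral.integral_sub h2 h1]
    rw [← mul_assoc, mul_inv_cancel₀ (by positivity), one_mul]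
    apply intervalIntegral.integral_congr
    intro θ _
    simp only
    rw [hpt]
  · filter_upwards with θ
    exact Real.posLog_nonneg

lemma measurable_neglog (hf : Differentiable ℂ f) :
    Measurable (fun z => ENNReal.ofReal (Real.posLog ‖f z‖⁻¹)) := by
  have h1 : Measurable (fun z => ‖f z‖⁻¹) := (hf.continuous.norm.measurable).inv
  exact ENNReal.measurable_ofReal.comp (Real.continuous_posLog.measurable.comp h1)

lemma lintegral_ball_neglog (hf : Differentiable ℂ f) {c : ℂ} (hc : f c ≠ 0) {R M : ℝ}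
    (hR : 0 < R) (hM : ∀ z ∈ closedBall c R, Real.posLog ‖f z‖ ≤ M) :
    ∫⁻ z in ball c R, ENNReal.ofReal (Real.posLog ‖f z‖⁻¹) ≤
      ENNReal.ofReal (R * (R * (2 * Real.pi * (M - Real.log ‖f c‖)))) := by
  rw [lintegral_ball_polar _ (measurable_neglog hf)]
  have hM0 : 0 ≤ M - Real.log ‖f c‖ := by
    have h1 := hM c (mem_closedBall_self hR.le)
    have h2 : Real.log ‖f c‖ ≤ Real.posLog ‖f c‖ := by
      rw [Real.posLog_apply]; exact le_max_right _ _
    linarith
  calc _ ≤ ∫⁻ r in Ioo 0 R, ENNReal.ofReal (R * (2 * Real.pi * (M - Real.log ‖f c‖))) := by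
        apply setLIntegral_mono' measurableSet_Ioo
        intro r hr
        rw [lintegral_circle_neglog hf c r, ENNReal.ofReal_mul hR.le]
        apply mul_le_mul'
        · exact ENNReal.ofReal_le_ofReal hr.2.le
        · apply ENNReal.ofReal_le_ofReal
          apply mul_le_mul_of_nonneg_left _ (by positivity)
          have h1 := jensen_lower hf hc hr.1
          have h2 : Real.circleAverage (fun z => Real.posLog ‖f z‖) c r ≤ M := by
            apply Real.circleAverage_mono_on_of_le_circle (circleIntegrable_posLog hf c r)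
            intro z hz
            apply hM
            rw [mem_sphere] at hz
            rw [mem_closedBall, hz, abs_of_pos hr.1]
            exact hr.2.le
          linarith
    _ = _ := by
        rw [setLIntegral_const, Real.volume_Ioo, sub_zero, mul_comm,
          ← ENNReal.ofReal_mul hR.le]

lemma lintegral_biUnion_finset_le' {ι : Type*} (I : Finset ι) (S : ι → Set ℂ) (w : ℂ → ℝ≥0∞) :
    ∫⁻ z in ⋃ k ∈ I, S k, w z ≤ ∑ k ∈ I, ∫⁻ z in S k, w z := by
  classical
  induction I using Finset.induction_on with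
  | empty => simp
  | insert a s ha ih =>
    rw [Finset.sum_insert ha, Finset.set_biUnion_insert]
    exact (lintegral_union_le w _ _).trans (add_le_add le_rfl ih)

/-- small discs covering the strip -/
lemma disc_bound : ∃ C : ℝ, 0 ≤ C ∧ ∀ (c : ℂ), (c.re = 2 ∨ c.re = -1) →
    ∫⁻ z in ball c 2, ENNReal.ofReal (Real.posLog ‖xi z‖⁻¹) ≤ ENNReal.ofReal (C * (|c.im| + 1)) := by
  obtain ⟨C, hC0, hC⟩ := posLog_xi_le
  refine ⟨4 * (2 * Real.pi * (2 * 8 + C * 7 + 10)), by positivity, ?_⟩
  intro c hc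
  have hre : |c.re - 1/2| = 3 / 2 := by
    rcases hc with h | h <;> rw [h] <;> norm_num
  -- lower bound at the centre
  have hlow : -(4 * (|c.im| + 2)) - 2 ≤ Real.log ‖xi c‖ := by
    have key : ∀ c : ℂ, c.re = 2 → -(4 * (|c.im| + 2)) - 2 ≤ Real.log ‖xi c‖ := by
      intro c h
      have h1 := log_norm_xi_ge (s := c) (by rw [h])
      have h2 : ‖c‖ ≤ |c.im| + 2 := by
        have := Complex.norm_le_abs_re_add_abs_im c
        rw [h] at this
        norm_num at this; linarith
      have h3 : 1 ≤ ‖c‖ := by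
        have := Complex.re_le_norm c; rw [h] at this; linarith
      have h4 : 0 ≤ Real.log ‖c‖ := Real.log_nonneg h3
      rw [h] at h1
      linarith
    rcases hc with h | h
    · exact key c h
    · have := key (1 - c) (by simp [h]; norm_num)
      rw [xi_one_sub] at this
      simpa using this
  have hne : xi c ≠ 0 := by
    rcases hc with h | h
    · exact xi_ne_zero_of_one_le_re (by rw [h]; norm_num)
    · exact xi_ne_zero_of_re_le_zero (by rw [h]; norm_num)
  have hup : ∀ z ∈ closedBall c 2, Real.posLog ‖xi z‖ ≤ (2 * 8 + C * 7) * (|c.im| + 1) := by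
    intro z hz
    rw [mem_closedBall, dist_eq_norm] at hz
    have h1 := hC (z - 1 / 2)
    rw [show (1 / 2 : ℂ) + (z - 1 / 2) = z by ring] at h1
    have hn : ‖z - 1 / 2‖ ≤ |c.im| + 6 := by
      have e : z - 1 / 2 = (z - c) + (c - 1 / 2) := by ring
      have h3 : ‖c - 1 / 2‖ ≤ |c.im| + 3 / 2 := by
        have := Complex.norm_le_abs_re_add_abs_im (c - 1/2)
        have h4 : (c - 1 / 2).re = c.re - 1 / 2 := by simp
        have h5 : (c - 1 / 2).im = c.im := by simp
        rw [h4, h5, hre] at this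
        linarith
      rw [e]
      have := norm_add_le (z - c) (c - 1 / 2)
      linarith
    have hr : |(z - 1 / 2).re| ≤ 4 := by
      have e : (z - 1 / 2).re = (z - c).re + (c.re - 1 / 2) := by simp
      rw [e]
      have h4 := Complex.abs_re_le_norm (z - c)
      have h5 := abs_add_le (z - c).re (c.re - 1 / 2)
      rw [hre] at h5
      linarith
    have hi : 0 ≤ |c.im| := abs_nonneg _
    have hn0 := norm_nonneg (z - 1 / 2)
    have hl : Real.log (‖z - 1 / 2‖ + 3) ≤ ‖z - 1 / 2‖ + 2 := by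
      have := Real.log_le_sub_one_of_pos (show 0 < ‖z - 1 / 2‖ + 3 by linarith); linarith
    have hl0 : 0 ≤ Real.log (‖z - 1 / 2‖ + 3) := Real.log_nonneg (by linarith)
    have h6 : |(z - 1 / 2).re| / 2 * Real.log (‖z - 1 / 2‖ + 3) ≤ 2 * (|c.im| + 8) := by
      have : |(z - 1 / 2).re| / 2 ≤ 2 := by linarith
      nlinarith
    have h7 : C * (‖z - 1 / 2‖ + 1) ≤ C * (|c.im| + 7) := mul_le_mul_of_nonneg_left (by linarith) hC0
    nlinarith [mul_nonneg hC0 hi]
  refine (lintegral_ball_neglog differentiable_xi hne (by norm_num) hup).trans ?_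
  apply ENNReal.ofReal_le_ofReal
  have hi : 0 ≤ |c.im| := abs_nonneg _
  have e : (2:ℝ) * (2 * (2 * Real.pi * ((2 * 8 + C * 7) * (|c.im| + 1) - Real.log ‖xi c‖))) =
      4 * (2 * Real.pi * ((2 * 8 + C * 7) * (|c.im| + 1) - Real.log ‖xi c‖)) := by ring
  rw [e]
  have e2 : 4 * (2 * Real.pi * (2 * 8 + C * 7 + 10)) * (|c.im| + 1) =
      4 * (2 * Real.pi * ((2 * 8 + C * 7 + 10) * (|c.im| + 1))) := by ring
  rw [e2]
  apply mul_le_mul_of_nonneg_left _ (by norm_num)
  apply mul_le_mul_of_nonneg_left _ (by positivity)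
  nlinarith

/-- The open vertical strip |Re z - 1/2| < 3/2. -/
def strip : Set ℂ := {z | |z.re - 1 / 2| < 3 / 2}

lemma measurableSet_strip : MeasurableSet strip := by
  unfold strip
  exact (isOpen_lt (by fun_prop) continuous_const).measurableSet

lemma strip_bound : ∃ C : ℝ, 0 ≤ C ∧ ∀ R : ℝ, 1 ≤ R →
    ∫⁻ z in ball 2 R ∩ strip, ENNReal.ofReal (Real.posLog ‖xi z‖⁻¹) ≤
      ENNReal.ofReal (C * R ^ 2) := by
  obtain ⟨C, hC0, hC⟩ := disc_bound
  refine ⟨60 * C, by positivity, ?_⟩
  intro R hR
  set N : ℕ := ⌈R⌉₊ + 1 with hN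
  have hN1 : R + 1 ≤ N := by
    rw [hN]; push_cast; have := Nat.le_ceil R; linarith
  have hN2 : (N : ℝ) ≤ R + 2 := by
    rw [hN]; push_cast; have := Nat.ceil_lt_add_one (show 0 ≤ R by linarith); linarith
  set w : ℂ → ℝ≥0∞ := fun z => ENNReal.ofReal (Real.posLog ‖xi z‖⁻¹) with hw
  set I : Finset ℤ := Finset.Icc (-(N:ℤ)) N with hI
  have hcover : ball (2:ℂ) R ∩ strip ⊆ ⋃ k ∈ I, (ball (2 + (k:ℝ) * Complex.I) 2 ∪ ball (-1 + (k:ℝ) * Complex.I) 2) := by
    intro z hz
    obtain ⟨hz1, hz2⟩ := hz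
    rw [mem_ball, dist_eq_norm] at hz1
    have him : |z.im| < R := by
      have := Complex.abs_im_le_norm (z - 2)
      simp at this
      linarith
    have hz2' : |z.re - 1 / 2| < 3 / 2 := hz2
    rw [abs_lt] at hz2' him
    set k : ℤ := round z.im with hk
    have hk1 : |z.im - k| ≤ 1 / 2 := abs_sub_round z.im
    rw [abs_le] at hk1
    have hkI : k ∈ I := by
      rw [hI, Finset.mem_Icc]
      constructor
      · have : (-(N:ℝ)) ≤ (k:ℝ) := by linarith
        exact_mod_cast this
      · have : (k:ℝ) ≤ (N:ℝ) := by linarith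
        exact_mod_cast this
    rw [mem_iUnion₂]
    refine ⟨k, hkI, ?_⟩
    rcases le_or_gt (1/2) z.re with h | h
    · left
      rw [mem_ball, dist_eq_norm]
      have h1 := Complex.sq_norm (z - (2 + (k:ℝ) * Complex.I))
      rw [Complex.normSq_apply] at h1
      have h2 : (z - (2 + (k:ℝ) * Complex.I)).re = z.re - 2 := by simp
      have h3 : (z - (2 + (k:ℝ) * Complex.I)).im = z.im - k := by simp
      rw [h2, h3] at h1
      have h4 : ‖z - (2 + (k:ℝ) * Complex.I)‖ ^ 2 < 2 ^ 2 := by
        rw [h1]; nlinarith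
      exact lt_of_pow_lt_pow_left₀ 2 (by norm_num) h4
    · right
      rw [mem_ball, dist_eq_norm]
      have h1 := Complex.sq_norm (z - (-1 + (k:ℝ) * Complex.I))
      rw [Complex.normSq_apply] at h1
      have h2 : (z - (-1 + (k:ℝ) * Complex.I)).re = z.re + 1 := by simp
      have h3 : (z - (-1 + (k:ℝ) * Complex.I)).im = z.im - k := by simp
      rw [h2, h3] at h1
      have h4 : ‖z - (-1 + (k:ℝ) * Complex.I)‖ ^ 2 < 2 ^ 2 := by
        rw [h1]; nlinarith
      exact lt_of_pow_lt_pow_left₀ 2 (by norm_num) h4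
  calc ∫⁻ z in ball 2 R ∩ strip, w z
      ≤ ∫⁻ z in ⋃ k ∈ I, (ball (2 + (k:ℝ) * Complex.I) 2 ∪ ball (-1 + (k:ℝ) * Complex.I) 2), w z :=
        lintegral_mono_set hcover
    _ ≤ ∑ k ∈ I, ∫⁻ z in (ball (2 + (k:ℝ) * Complex.I) 2 ∪ ball (-1 + (k:ℝ) * Complex.I) 2), w z := by
        exact lintegral_biUnion_finset_le' I _ w
    _ ≤ ∑ k ∈ I, ENNReal.ofReal (2 * (C * (N + 1))) := by
        apply Finset.sum_le_sum
        intro k hk
        have hkN : |(k:ℝ)| ≤ N := by
          rw [hI, Finset.mem_Icc] at hk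
          rw [abs_le]
          constructor
          · have := hk.1; exact_mod_cast this
          · have := hk.2; exact_mod_cast this
        refine (lintegral_union_le w _ _).trans ?_
        have h1 := hC (2 + (k:ℝ) * Complex.I) (Or.inl (by simp))
        have h2 := hC (-1 + (k:ℝ) * Complex.I) (Or.inr (by simp))
        have h3 : (2 + (k:ℝ) * Complex.I).im = k := by simp
        have h4 : (-1 + (k:ℝ) * Complex.I).im = k := by simp
        rw [h3] at h1
        rw [h4] at h2
        have h5 : ENNReal.ofReal (C * (|(k:ℝ)| + 1)) ≤ ENNReal.ofReal (C * (N + 1)) :=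
          ENNReal.ofReal_le_ofReal (mul_le_mul_of_nonneg_left (by linarith) hC0)
        rw [two_mul, ENNReal.ofReal_add (by positivity) (by positivity)]
        exact add_le_add (h1.trans h5) (h2.trans h5)
    _ = ENNReal.ofReal ((2 * N + 1) * (2 * (C * (N + 1)))) := by
        rw [Finset.sum_const, hI, Int.card_Icc]
        have : ((N:ℤ) + 1 - -(N:ℤ)).toNat = 2 * N + 1 := by omega
        have e3 : (2 * (N:ℝ) + 1) = ((2 * N + 1 : ℕ) : ℝ) := by push_cast; ring
        rw [this, nsmul_eq_mul, e3, ENNReal.ofReal_mul (Nat.cast_nonneg _),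
          ENNReal.ofReal_natCast]
    _ ≤ ENNReal.ofReal (60 * C * R ^ 2) := by
        apply ENNReal.ofReal_le_ofReal
        have h1 : (2 * (N:ℝ) + 1) ≤ 7 * R := by linarith
        have h2 : (N:ℝ) + 1 ≤ 4 * R := by linarith
        have h3 : (2 * (N:ℝ) + 1) * ((N:ℝ) + 1) ≤ (7 * R) * (4 * R) := by
          apply mul_le_mul h1 h2 (by positivity) (by positivity)
        nlinarith [mul_le_mul_of_nonneg_left h3 hC0, mul_nonneg hC0 (sq_nonneg R)]

end Pool.Agent.Helper57.Zeta
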