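import Pool.Agent.Helper57.Zeta.Strip

open Complex Filter Topology MeasureTheory Set Metric
open scoped ENNReal

namespace Pool.Agent.Helper57.Zeta

lemma integral_abs_cos : ∫ θ in (0:ℝ)..(2 * Real.pi), |Real.cos θ| = 4 := by
  have hper : Function.Periodic (fun θ => |Real.cos θ|) (2 * Real.pi) := by
    intro θ; simp only [Real.cos_add_two_pi]
  have h1 := hper.intervalIntegral_add_eq 0 (-(Real.pi / 2))
  rw [zero_add] at h1
  rw [h1, show -(Real.pi / 2) + 2 * Real.pi = 3 * Real.pi / 2 by ring]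
  have hc : Continuous (fun θ => |Real.cos θ|) := Real.continuous_cos.abs
  rw [← intervalIntegral.integral_add_adjacent_intervals (b := Real.pi / 2)
    (hc.intervalIntegrable _ _) (hc.intervalIntegrable _ _)]
  have h2 : ∫ θ in (-(Real.pi / 2))..(Real.pi / 2), |Real.cos θ| = 2 := by
    have : ∫ θ in (-(Real.pi / 2))..(Real.pi / 2), |Real.cos θ| =
        ∫ θ in (-(Real.pi / 2))..(Real.pi / 2), Real.cos θ := by
      apply intervalIntegral.integral_congr
      intro θ hθ
      rw [uIcc_of_le (by linarith [Real.pi_pos])] at hθ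
      simp only
      exact abs_of_nonneg (Real.cos_nonneg_of_mem_Icc hθ)
    rw [this, integral_cos]
    simp; norm_num
  have h3 : ∫ θ in (Real.pi / 2)..(3 * Real.pi / 2), |Real.cos θ| = 2 := by
    have : ∫ θ in (Real.pi / 2)..(3 * Real.pi / 2), |Real.cos θ| =
        ∫ θ in (Real.pi / 2)..(3 * Real.pi / 2), -Real.cos θ := by
      apply intervalIntegral.integral_congr
      intro θ hθ
      rw [uIcc_of_le (by linarith [Real.pi_pos])] at hθ
      simp only
      apply abs_of_nonpos
      apply Real.cos_nonpos_of_pi_div_two_le_of_le hθ.1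
      linarith [hθ.2]
    rw [this, intervalIntegral.integral_neg, integral_cos]
    have e : Real.sin (3 * Real.pi / 2) = -1 := by
      rw [show 3 * Real.pi / 2 = Real.pi / 2 + Real.pi by ring, Real.sin_add_pi, Real.sin_pi_div_two]
    rw [e, Real.sin_pi_div_two]; norm_num
  rw [h2, h3]; norm_num

lemma circleAverage_abs_re (c : ℂ) {R : ℝ} (hR : 0 ≤ R) :
    Real.circleAverage (fun z => |(z - c).re|) c R = 2 / Real.pi * R := by
  rw [Real.circleAverage_def]
  have : ∀ θ : ℝ, |(circleMap c R θ - c).re| = R * |Real.cos θ| := by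
    intro θ
    rw [circleMap]
    simp only [add_sub_cancel_left]
    rw [Complex.exp_mul_I]
    have e : ((R:ℂ) * (Complex.cos θ + Complex.sin θ * Complex.I)).re = R * Real.cos θ := by
      rw [Complex.re_ofReal_mul]
      congr 1
      rw [← Complex.ofReal_cos, ← Complex.ofReal_sin, Complex.add_re, Complex.ofReal_re,
        Complex.re_ofReal_mul, Complex.I_re]
      ring
    rw [e, abs_mul, abs_of_nonneg hR]
  simp only [this]
  rw [intervalIntegral.integral_const_mul, integral_abs_cos]
  have := Real.pi_ne_zero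
  simp only [smul_eq_mul]
  field_simp
  ring

lemma circleAverage_eq_Ioo (f : ℂ → ℝ) (c : ℂ) (r : ℝ) :
    Real.circleAverage f c r = (2 * Real.pi)⁻¹ * ∫ θ in Ioo (-Real.pi) Real.pi, f (circleMap c r θ) := by
  rw [Real.circleAverage_def, smul_eq_mul]
  congr 1
  have hper : Function.Periodic (fun θ => f (circleMap c r θ)) (2 * Real.pi) := by
    intro θ; simp only; rw [periodic_circleMap c r θ]
  have h1 := hper.intervalIntegral_add_eq 0 (-Real.pi)
  rw [zero_add] at h1
  rw [h1, show -Real.pi + 2 * Real.pi = Real.pi by ring,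
    intervalIntegral.integral_of_le (by linarith [Real.pi_pos]), integral_Ioc_eq_integral_Ioo]

lemma integrableOn_Ioo_of_circleIntegrable {f : ℂ → ℝ} {c : ℂ} {r : ℝ}
    (h : CircleIntegrable f c r) :
    IntegrableOn (fun θ => f (circleMap c r θ)) (Ioo (-Real.pi) Real.pi) := by
  have hper : Function.Periodic (fun θ => f (circleMap c r θ)) (2 * Real.pi) := by
    intro θ; simp only; rw [periodic_circleMap c r θ]
  have h1 : IntervalIntegrable (fun θ => f (circleMap c r θ)) volume (-Real.pi) Real.pi :=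
    hper.intervalIntegrable₀ (by positivity) h _ _
  rwa [intervalIntegrable_iff_integrableOn_Ioo_of_le (by linarith [Real.pi_pos])] at h1

/-- the average of log|xi| over the circle of centre 2 and radius R -/
noncomputable def Av (R : ℝ) : ℝ := Real.circleAverage (fun z => Real.log ‖xi z‖) 2 R

lemma Av_upper : ∃ C : ℝ, 0 ≤ C ∧ ∀ R : ℝ, 5 ≤ R → Av R ≤ R / Real.pi * Real.log R + C * R := by
  obtain ⟨C, hC0, hC⟩ := posLog_xi_le
  refine ⟨3 + 2 * C, by positivity, ?_⟩
  intro R hR
  have hR0 : 0 < R := by linarith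
  have hpt : ∀ z ∈ sphere (2:ℂ) |R|, Real.log ‖xi z‖ ≤
      (|(z - 2).re| + 3 / 2) / 2 * Real.log (R + 5) + C * (R + 5 / 2) := by
    intro z hz
    rw [abs_of_pos hR0, mem_sphere, dist_eq_norm] at hz
    have h1 := hC (z - 1 / 2)
    rw [show (1 / 2 : ℂ) + (z - 1 / 2) = z by ring] at h1
    have h2 : Real.log ‖xi z‖ ≤ Real.posLog ‖xi z‖ := by
      rw [Real.posLog_apply]; exact le_max_right _ _
    have hn : ‖z - 1 / 2‖ ≤ R + 3 / 2 := by
      have e : z - 1 / 2 = (z - 2) + (3 / 2) := by ring
      rw [e]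
      have := norm_add_le (z - 2) (3 / 2)
      rw [hz] at this
      norm_num at this ⊢; linarith
    have hr : |(z - 1 / 2).re| ≤ |(z - 2).re| + 3 / 2 := by
      have e : (z - 1 / 2).re = (z - 2).re + 3 / 2 := by simp; ring
      rw [e]
      have := abs_add_le (z - 2).re (3 / 2)
      rw [abs_of_pos (show (0:ℝ) < 3 / 2 by norm_num)] at this
      exact this
    have hn0 := norm_nonneg (z - 1 / 2)
    have hl0 : 0 ≤ Real.log (‖z - 1 / 2‖ + 3) := Real.log_nonneg (by linarith)
    have hl1 : Real.log (‖z - 1 / 2‖ + 3) ≤ Real.log (R + 5) :=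
      Real.log_le_log (by linarith) (by linarith)
    have h3 : |(z - 1 / 2).re| / 2 * Real.log (‖z - 1 / 2‖ + 3) ≤
        (|(z - 2).re| + 3 / 2) / 2 * Real.log (R + 5) := by
      apply mul_le_mul _ hl1 hl0 (by positivity)
      linarith
    have h4 : C * (‖z - 1 / 2‖ + 1) ≤ C * (R + 5 / 2) :=
      mul_le_mul_of_nonneg_left (by linarith) hC0
    linarith
  have hg : Continuous (fun z : ℂ => (|(z - 2).re| + 3 / 2) / 2 * Real.log (R + 5) + C * (R + 5 / 2)) := by
    fun_prop
  have hgi : CircleIntegrable (fun z : ℂ => (|(z - 2).re| + 3 / 2) / 2 * Real.log (R + 5) + C * (R + 5 / 2)) 2 R :=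
    hg.continuousOn.circleIntegrable hR0.le
  have h1 : Av R ≤ Real.circleAverage (fun z : ℂ => (|(z - 2).re| + 3 / 2) / 2 * Real.log (R + 5) + C * (R + 5 / 2)) 2 R :=
    Real.circleAverage_mono (circleIntegrable_log differentiable_xi 2 R) hgi hpt
  have hge : (fun z : ℂ => (|(z - 2).re| + 3 / 2) / 2 * Real.log (R + 5) + C * (R + 5 / 2)) =
      fun z : ℂ => (Real.log (R + 5) / 2) • |(z - 2).re| + (3 / 4 * Real.log (R + 5) + C * (R + 5 / 2)) := by
    ext z; simp only [smul_eq_mul]; ring
  have hc1 : Continuous (fun z : ℂ => |(z - 2).re|) := by fun_prop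
  have h2 : Real.circleAverage (fun z : ℂ => (|(z - 2).re| + 3 / 2) / 2 * Real.log (R + 5) + C * (R + 5 / 2)) 2 R =
      Real.log (R + 5) / 2 * (2 / Real.pi * R) + (3 / 4 * Real.log (R + 5) + C * (R + 5 / 2)) := by
    rw [hge]
    rw [Real.circleAverage_fun_add]
    · rw [Real.circleAverage_fun_smul, circleAverage_abs_re 2 hR0.le, Real.circleAverage_const]
      rfl
    · apply Continuous.continuousOn _ |>.circleIntegrable hR0.le
      fun_prop
    · exact circleIntegrable_const _ _ _
  rw [h2] at h1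
  have hlog : Real.log (R + 5) ≤ Real.log R + 1 := by
    have h3 : Real.log (R + 5) ≤ Real.log (2 * R) := Real.log_le_log (by linarith) (by linarith)
    rw [Real.log_mul (by norm_num) hR0.ne'] at h3
    have := Real.log_two_lt_d9
    linarith
  have hlR : Real.log R ≤ R := by
    have := Real.log_le_sub_one_of_pos hR0; linarith
  have hpi := Real.pi_gt_three
  have hRpi : R / Real.pi ≤ R / 3 := by
    apply div_le_div_of_nonneg_left hR0.le (by norm_num) hpi.le
  have h5 : Real.log (R + 5) / 2 * (2 / Real.pi * R) = R / Real.pi * Real.log (R + 5) := by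
    field_simp
  rw [h5] at h1
  have h6 : R / Real.pi * Real.log (R + 5) ≤ R / Real.pi * (Real.log R + 1) :=
    mul_le_mul_of_nonneg_left hlog (by positivity)
  nlinarith

/-- pointwise lower bound on circles centred at 2 -/
lemma log_xi_circle_lower {r : ℝ} (hr : 5 ≤ r) {z : ℂ} (hz : ‖z - 2‖ = r) :
    (|(z - 2).re| - 3 / 2) / 2 * Real.log (r - 3 / 2) - 6 * (r + 3) -
      strip.indicator (fun z => Real.posLog ‖xi z‖⁻¹) z ≤ Real.log ‖xi z‖ := by
  have hl0 : 0 ≤ Real.log (r - 3 / 2) := Real.log_nonneg (by linarith)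
  have hlr : Real.log (r - 3 / 2) ≤ r := by
    have := Real.log_le_sub_one_of_pos (show 0 < r - 3 / 2 by linarith); linarith
  by_cases hs : z ∈ strip
  · rw [indicator_of_mem hs]
    have h1 : |z.re - 1 / 2| < 3 / 2 := hs
    have h2 : |(z - 2).re| ≤ 3 := by
      have e : (z - 2).re = (z.re - 1 / 2) + (-(3 / 2)) := by simp; ring
      rw [e]
      have := abs_add_le (z.re - 1 / 2) (-(3 / 2))
      rw [abs_neg, abs_of_pos (show (0:ℝ) < 3 / 2 by norm_num)] at this
      linarith
    have h3 := Real.posLog_sub_posLog_inv (x := ‖xi z‖)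
    have h4 : 0 ≤ Real.posLog ‖xi z‖ := Real.posLog_nonneg
    have h5 : (|(z - 2).re| - 3 / 2) / 2 * Real.log (r - 3 / 2) ≤ 1 * r := by
      calc (|(z - 2).re| - 3 / 2) / 2 * Real.log (r - 3 / 2) ≤ 1 * Real.log (r - 3 / 2) := by
            apply mul_le_mul_of_nonneg_right _ hl0; linarith
        _ ≤ 1 * r := by linarith
    linarith
  · rw [indicator_of_notMem hs]
    have h1 : 3 / 2 ≤ |z.re - 1 / 2| := not_lt.mp hs
    have h2 := log_xi_ge_aux (z := z - 1 / 2) (by
      have : (z - 1 / 2).re = z.re - 1 / 2 := by simp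
      rw [this]; exact h1)
    rw [show (1 / 2 : ℂ) + (z - 1 / 2) = z by ring] at h2
    have hn : ‖z - 1 / 2‖ ≤ r + 3 / 2 := by
      have e : z - 1 / 2 = (z - 2) + (3 / 2) := by ring
      rw [e]
      have := norm_add_le (z - 2) (3 / 2)
      rw [hz] at this
      norm_num at this ⊢; linarith
    have hn2 : r - 3 / 2 ≤ ‖z - 1 / 2‖ := by
      have e : z - 2 = (z - 1 / 2) + (-(3 / 2)) := by ring
      have := norm_add_le (z - 1 / 2) (-(3 / 2))
      rw [← e, hz] at this
      norm_num at this ⊢; linarith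
    have hr1 : |(z - 2).re| - 3 / 2 ≤ |(z - 1 / 2).re| := by
      have e : (z - 2).re = (z - 1 / 2).re + (-(3 / 2)) := by simp; ring
      rw [e]
      have := abs_add_le (z - 1 / 2).re (-(3 / 2))
      rw [abs_neg, abs_of_pos (show (0:ℝ) < 3 / 2 by norm_num)] at this
      linarith
    have h3 : (|(z - 2).re| - 3 / 2) / 2 * Real.log (r - 3 / 2) ≤
        |(z - 1 / 2).re| / 2 * Real.log ‖z - 1 / 2‖ := by
      calc (|(z - 2).re| - 3 / 2) / 2 * Real.log (r - 3 / 2)
          ≤ |(z - 1 / 2).re| / 2 * Real.log (r - 3 / 2) := by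
            apply mul_le_mul_of_nonneg_right _ hl0; linarith
        _ ≤ _ := by
            apply mul_le_mul_of_nonneg_left _ (by positivity)
            exact Real.log_le_log (by linarith) hn2
    linarith

lemma good_radius (δ : ℝ) (hδ : 0 < δ) (hδ1 : δ < 1) : ∃ C : ℝ, 0 ≤ C ∧ ∀ R : ℝ, 1 ≤ R →
    ∃ r ∈ Ioo ((1 - δ) * R) R,
      ∫⁻ θ in Ioo (-Real.pi) Real.pi, ENNReal.ofReal
        (strip.indicator (fun z => Real.posLog ‖xi z‖⁻¹) (circleMap 2 r θ)) ≤ ENNReal.ofReal C := by
  obtain ⟨C, hC0, hC⟩ := strip_bound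
  have h1δ : 0 < 1 - δ := by linarith
  refine ⟨(C + 1) / (δ * (1 - δ)), by positivity, ?_⟩
  intro R hR
  have hR0 : 0 < R := by linarith
  by_contra hcon
  push Not at hcon
  set W : ℂ → ℝ≥0∞ := fun z => ENNReal.ofReal (strip.indicator (fun z => Real.posLog ‖xi z‖⁻¹) z)
    with hW
  have hWeq : W = strip.indicator (fun z => ENNReal.ofReal (Real.posLog ‖xi z‖⁻¹)) := by
    ext z
    by_cases hz : z ∈ strip
    · simp [hW, hz]
    · simp [hW, hz]
  have hWm : Measurable W := by
    rw [hWeq]
    exact (measurable_neglog differentiable_xi).indicator measurableSet_strip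
  have h1 : ∫⁻ z in ball 2 R, W z ≤ ENNReal.ofReal (C * R ^ 2) := by
    rw [hWeq, setLIntegral_indicator measurableSet_strip, inter_comm]
    exact hC R hR
  rw [lintegral_ball_polar W hWm] at h1
  have h2 : ENNReal.ofReal ((C + 1) * R ^ 2) ≤
      ∫⁻ r in Ioo 0 R, ENNReal.ofReal r * ∫⁻ θ in Ioo (-Real.pi) Real.pi, W (circleMap 2 r θ) := by
    calc ENNReal.ofReal ((C + 1) * R ^ 2)
        = ∫⁻ r in Ioo ((1 - δ) * R) R,
            ENNReal.ofReal (((1 - δ) * R) * ((C + 1) / (δ * (1 - δ)))) := by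
          rw [setLIntegral_const, Real.volume_Ioo, ← ENNReal.ofReal_mul (by positivity)]
          congr 1
          field_simp
          ring
      _ ≤ ∫⁻ r in Ioo ((1 - δ) * R) R,
            ENNReal.ofReal r * ∫⁻ θ in Ioo (-Real.pi) Real.pi, W (circleMap 2 r θ) := by
          apply setLIntegral_mono' measurableSet_Ioo
          intro r hr
          rw [ENNReal.ofReal_mul (by positivity)]
          apply mul_le_mul'
          · exact ENNReal.ofReal_le_ofReal hr.1.le
          · exact (hcon r hr).le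
      _ ≤ _ := by
          apply lintegral_mono_set
          intro r hr
          exact ⟨lt_trans (by positivity) hr.1, hr.2⟩
  have h3 := h2.trans h1
  rw [ENNReal.ofReal_le_ofReal_iff (by positivity)] at h3
  nlinarith [sq_nonneg R, mul_pos hR0 hR0]

lemma Av_lower (δ : ℝ) (hδ : 0 < δ) (hδ1 : δ < 1) : ∃ C : ℝ, 0 ≤ C ∧ ∃ R₀ : ℝ, ∀ R : ℝ, R₀ ≤ R →
    (1 - δ) / Real.pi * (R * Real.log R) - C * R ≤ Av R := by
  obtain ⟨C, hC0, hC⟩ := good_radius δ hδ hδ1
  have h1δ : 0 < 1 - δ := by linarith
  set K : ℝ := Real.log (2 / (1 - δ)) with hK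
  have hK0 : 0 ≤ K := Real.log_nonneg (by rw [le_div_iff₀ h1δ]; linarith)
  refine ⟨K + 20 + C, by positivity, max 5 (5 / (1 - δ)), ?_⟩
  intro R hR
  have hR5 : 5 ≤ R := le_trans (le_max_left _ _) hR
  have hR0 : 0 < R := by linarith
  have hRδ : 5 ≤ (1 - δ) * R := by
    have := le_trans (le_max_right _ _) hR
    rw [div_le_iff₀ h1δ] at this
    linarith
  obtain ⟨r, hr, hrW⟩ := hC R (by linarith)
  have hr5 : 5 ≤ r := by linarith [hr.1]
  have hr0 : 0 < r := by linarith
  have hmono : Av r ≤ Av R :=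
    circleAverage_log_mono differentiable_xi (xi_ne_zero_of_one_le_re (by norm_num)) hr0 hr.2.le
  refine le_trans ?_ hmono
  -- lower bound for Av r
  set Wr : ℝ → ℝ := fun θ => strip.indicator (fun z => Real.posLog ‖xi z‖⁻¹) (circleMap 2 r θ) with hWr
  have hW0 : ∀ θ, 0 ≤ Wr θ := by
    intro θ
    apply indicator_nonneg
    intro z _
    exact Real.posLog_nonneg
  have hWmeas : Measurable Wr := by
    have hm : Measurable (strip.indicator (fun z => Real.posLog ‖xi z‖⁻¹)) := by
      apply Measurable.indicator _ measurableSet_strip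
      exact Real.continuous_posLog.measurable.comp (differentiable_xi.continuous.norm.measurable).inv
    exact hm.comp (continuous_circleMap 2 r).measurable
  have hWint : IntegrableOn Wr (Ioo (-Real.pi) Real.pi) := by
    refine ⟨hWmeas.aestronglyMeasurable, ?_⟩
    rw [hasFiniteIntegral_iff_ofReal (by filter_upwards with θ; exact hW0 θ)]
    exact lt_of_le_of_lt hrW ENNReal.ofReal_lt_top
  have hWle : ∫ θ in Ioo (-Real.pi) Real.pi, Wr θ ≤ C := by
    rw [integral_eq_lintegral_of_nonneg_ae (by filter_upwards with θ; exact hW0 θ)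
      hWmeas.aestronglyMeasurable]
    apply ENNReal.toReal_le_of_le_ofReal hC0 hrW
  set g : ℂ → ℝ := fun z => (|(z - 2).re| - 3 / 2) / 2 * Real.log (r - 3 / 2) - 6 * (r + 3) with hg
  have hgc : Continuous g := by rw [hg]; fun_prop
  have hgi : CircleIntegrable g 2 r := hgc.continuousOn.circleIntegrable hr0.le
  have hG := integrableOn_Ioo_of_circleIntegrable hgi
  have hF := integrableOn_Ioo_of_circleIntegrable (circleIntegrable_log differentiable_xi 2 r)
  have h1 : (∫ θ in Ioo (-Real.pi) Real.pi, g (circleMap 2 r θ)) -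
      ∫ θ in Ioo (-Real.pi) Real.pi, Wr θ ≤
      ∫ θ in Ioo (-Real.pi) Real.pi, Real.log ‖xi (circleMap 2 r θ)‖ := by
    rw [← integral_sub hG hWint]
    apply integral_mono (hG.sub hWint) hF
    intro θ
    simp only
    have := log_xi_circle_lower hr5 (z := circleMap 2 r θ) (by
      rw [circleMap_sub_center, norm_circleMap_zero, abs_of_pos hr0])
    exact this
  have h2 : Real.circleAverage g 2 r - C ≤ Av r := by
    unfold Av
    rw [circleAverage_eq_Ioo, circleAverage_eq_Ioo]
    have h3 : (2 * Real.pi)⁻¹ * C ≤ C := by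
      have : (2 * Real.pi)⁻¹ ≤ 1 := by
        rw [inv_le_one₀ (by positivity)]
        linarith [Real.pi_gt_three]
      nlinarith
    have h4 : (2 * Real.pi)⁻¹ * ((∫ θ in Ioo (-Real.pi) Real.pi, g (circleMap 2 r θ)) - C) ≤
        (2 * Real.pi)⁻¹ * ∫ θ in Ioo (-Real.pi) Real.pi, Real.log ‖xi (circleMap 2 r θ)‖ := by
      apply mul_le_mul_of_nonneg_left _ (by positivity)
      linarith
    rw [mul_sub] at h4
    linarith
  have hgav : Real.circleAverage g 2 r = r / Real.pi * Real.log (r - 3 / 2) -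
      (3 / 4 * Real.log (r - 3 / 2) + 6 * (r + 3)) := by
    have hge : g = fun z : ℂ => (Real.log (r - 3 / 2) / 2) • |(z - 2).re| +
        (-(3 / 4 * Real.log (r - 3 / 2) + 6 * (r + 3))) := by
      ext z; simp only [smul_eq_mul, hg]; ring
    rw [hge, Real.circleAverage_fun_add]
    · rw [Real.circleAverage_fun_smul, circleAverage_abs_re 2 hr0.le, Real.circleAverage_const]
      simp only [smul_eq_mul]
      have := Real.pi_ne_zero
      field_simp
      ring
    · apply Continuous.continuousOn _ |>.circleIntegrable hr0.le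
      fun_prop
    · exact circleIntegrable_const _ _ _
  rw [hgav] at h2
  -- final numeric estimates
  have hr32 : (1 - δ) / 2 * R ≤ r - 3 / 2 := by
    have := hr.1
    nlinarith
  have hl1 : Real.log R - K ≤ Real.log (r - 3 / 2) := by
    have h5 : Real.log ((1 - δ) / 2 * R) ≤ Real.log (r - 3 / 2) :=
      Real.log_le_log (by positivity) hr32
    rw [Real.log_mul (by positivity) hR0.ne'] at h5
    have h6 : Real.log ((1 - δ) / 2) = -K := by
      rw [hK, ← Real.log_inv, inv_div]
    rw [h6] at h5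
    linarith
  have hl2 : Real.log (r - 3 / 2) ≤ R := by
    have := Real.log_le_sub_one_of_pos (show 0 < r - 3 / 2 by linarith)
    linarith [hr.2]
  have hl0 : 0 ≤ Real.log (r - 3 / 2) := Real.log_nonneg (by linarith)
  have hpi := Real.pi_gt_three
  have h7 : (1 - δ) / Real.pi * R * Real.log (r - 3 / 2) ≤ r / Real.pi * Real.log (r - 3 / 2) := by
    apply mul_le_mul_of_nonneg_right _ hl0
    rw [div_mul_eq_mul_div]
    apply div_le_div_of_nonneg_right hr.1.le (by linarith)
  have h8 : (1 - δ) / Real.pi * R * (Real.log R - K) ≤ (1 - δ) / Real.pi * R * Real.log (r - 3 / 2) :=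
    mul_le_mul_of_nonneg_left hl1 (by positivity)
  have h9 : (1 - δ) / Real.pi * R * K ≤ R * K := by
    apply mul_le_mul_of_nonneg_right _ hK0
    have : (1 - δ) / Real.pi ≤ 1 := by
      rw [div_le_one (by linarith)]; linarith
    nlinarith
  have h10 : C ≤ C * R := by nlinarith
  have hrR := hr.2
  nlinarith

end Pool.Agent.Helper57.Zeta
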