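import Pool.Agent.Helper57.Zeta.Xi

open Complex Filter Topology MeasureTheory Set

namespace Pool.Agent.Helper57.Zeta

lemma gamma_upper {x : ℝ} (hx : 1 / 4 ≤ x) : Real.Gamma x ≤ 16 * (x + 2) ^ (x + 2) := by
  have hx0 : 0 < x := by linarith
  have h1 : Real.Gamma (x + 2) = (x + 1) * (x * Real.Gamma x) := by
    rw [show x + 2 = (x + 1) + 1 by ring, Real.Gamma_add_one (by linarith : x + 1 ≠ 0),
      Real.Gamma_add_one hx0.ne']
  have hG : 0 < Real.Gamma x := Real.Gamma_pos_of_pos hx0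
  have h2 : Real.Gamma x ≤ 16 * Real.Gamma (x + 2) := by
    rw [h1]
    have : 1 ≤ 16 * ((x + 1) * x) := by nlinarith
    nlinarith
  refine h2.trans ?_
  have h3 : Real.Gamma (x + 2) ≤ (x + 2) ^ (x + 2) := by
    set n : ℕ := ⌈x⌉₊ with hn
    have hn1 : x ≤ n := Nat.le_ceil x
    have hn2 : (n : ℝ) < x + 1 := Nat.ceil_lt_add_one hx0.le
    have h4 : Real.Gamma (x + 2) ≤ Real.Gamma ((n : ℝ) + 2) := by
      apply Real.Gamma_strictMonoOn_Ici.monotoneOn
      · simp; linarith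
      · simp
      · linarith
    have h5 : Real.Gamma ((n : ℝ) + 2) = ((n + 1).factorial : ℝ) := by
      have := Real.Gamma_nat_eq_factorial (n + 1)
      rw [← this]; push_cast; ring_nf
    rw [h5] at h4
    refine h4.trans ?_
    have h6 : ((n + 1).factorial : ℝ) ≤ ((n : ℝ) + 1) ^ (n + 1) := by
      have := Nat.factorial_le_pow (n + 1)
      calc ((n + 1).factorial : ℝ) ≤ (((n + 1) ^ (n + 1) : ℕ) : ℝ) := by exact_mod_cast this
        _ = _ := by push_cast; ring
    refine h6.trans ?_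
    calc ((n : ℝ) + 1) ^ (n + 1) ≤ (x + 2) ^ (n + 1) := by
          apply pow_le_pow_left₀ (by positivity); linarith
      _ = (x + 2) ^ (((n + 1 : ℕ) : ℝ)) := by rw [Real.rpow_natCast]
      _ ≤ (x + 2) ^ (x + 2) := by
          apply Real.rpow_le_rpow_of_exponent_le (by linarith)
          push_cast; linarith
  linarith

lemma gamma_lower {x : ℝ} (hx : 0 < x) : x ^ x * Real.exp (-x) ≤ Real.Gamma (x + 1) := by
  rw [Real.Gamma_eq_integral (by linarith)]
  have hint : IntegrableOn (fun t : ℝ => Real.exp (-t) * t ^ (x + 1 - 1)) (Ioi 0) :=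
    Real.GammaIntegral_convergent (by linarith)
  have h1 : ∫ t in Ioi x, x ^ x * Real.exp (-t) = x ^ x * Real.exp (-x) := by
    rw [integral_const_mul, integral_exp_neg_Ioi]
  rw [← h1]
  calc ∫ t in Ioi x, x ^ x * Real.exp (-t) ≤ ∫ t in Ioi x, Real.exp (-t) * t ^ (x + 1 - 1) := by
        apply setIntegral_mono_on
        · apply Integrable.const_mul
          exact integrableOn_exp_neg_Ioi x
        · exact hint.mono_set (Ioi_subset_Ioi hx.le)
        · exact measurableSet_Ioi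
        · intro t ht
          rw [mul_comm]
          apply mul_le_mul_of_nonneg_left _ (Real.exp_pos _).le
          rw [add_sub_cancel_right]
          exact Real.rpow_le_rpow hx.le (le_of_lt ht) hx.le
    _ ≤ ∫ t in Ioi 0, Real.exp (-t) * t ^ (x + 1 - 1) := by
        apply setIntegral_mono_set hint
        · filter_upwards [ae_restrict_mem measurableSet_Ioi] with t ht
          have : (0:ℝ) < t := ht
          positivity
        · exact (Ioi_subset_Ioi hx.le).eventuallyLE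

lemma norm_Gamma_one_add_I (y : ℝ) : Real.exp (-(Real.pi * |y| / 2)) ≤ ‖Gamma (1 + I * y)‖ := by
  rcases eq_or_ne y 0 with rfl | hy
  · simp
  have hy' : (y : ℂ) ≠ 0 := by exact_mod_cast hy
  have h1 : Gamma (1 + I * y) * Gamma (1 - I * y) = Real.pi * y / Complex.sinh (Real.pi * y) := by
    have h2 := Complex.Gamma_mul_Gamma_one_sub (-(I * y))
    have h3 : Gamma (-(I * y) + 1) = -(I * y) * Gamma (-(I * y)) := by
      apply Complex.Gamma_add_one
      simp [hy]
    have h4 : (1 : ℂ) - -(I * y) = 1 + I * y := by ring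
    have h5 : (1 : ℂ) - I * y = -(I * y) + 1 := by ring
    rw [h5, h3, mul_comm, mul_assoc, ← h4, h2]
    have h6 : Complex.sin (Real.pi * -(I * y)) = -(Complex.sinh (Real.pi * y) * I) := by
      rw [show (Real.pi : ℂ) * -(I * y) = -((Real.pi * y) * I) by ring, Complex.sin_neg,
        Complex.sin_mul_I]
    rw [h6]
    have h7 : Complex.sinh (Real.pi * y) ≠ 0 := by
      have : Real.sinh (Real.pi * y) ≠ 0 := by
        rw [Ne, Real.sinh_eq_zero]
        exact mul_ne_zero Real.pi_ne_zero hy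
      intro h
      apply this
      have h8 : ((Real.sinh (Real.pi * y) : ℝ) : ℂ) = Complex.sinh (Real.pi * y) := by
        push_cast; rfl
      rw [h] at h8
      exact_mod_cast h8
    have hI : (I : ℂ) ≠ 0 := I_ne_zero
    field_simp
  have h2 : Gamma (1 - I * y) = starRingEnd ℂ (Gamma (1 + I * y)) := by
    rw [← Complex.Gamma_conj]
    congr 1
    simp [sub_eq_add_neg]
  rw [h2, Complex.mul_conj] at h1
  have h3 : ‖Gamma (1 + I * y)‖ ^ 2 = Real.pi * y / Real.sinh (Real.pi * y) := by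
    rw [Complex.normSq_eq_norm_sq] at h1
    have : (((Real.pi * y / Real.sinh (Real.pi * y) : ℝ)) : ℂ) =
        Real.pi * y / Complex.sinh (Real.pi * y) := by push_cast; rfl
    rw [← this] at h1
    exact_mod_cast h1
  have h4 : Real.pi * y / Real.sinh (Real.pi * y) =
      Real.pi * |y| / Real.sinh (Real.pi * |y|) := by
    rcases abs_choice y with h | h
    · rw [h]
    · rw [h]
      rw [show Real.pi * -y = -(Real.pi * y) by ring, Real.sinh_neg, neg_div_neg_eq]
  have hu : 0 < Real.pi * |y| := mul_pos Real.pi_pos (abs_pos.mpr hy)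
  set u := Real.pi * |y| with hudef
  have hs : 0 < Real.sinh u := Real.sinh_pos_iff.mpr hu
  have h5 : Real.exp (-u) ≤ u / Real.sinh u := by
    rw [le_div_iff₀ hs, Real.sinh_eq]
    have h6 : Real.exp (-u) * ((Real.exp u - Real.exp (-u)) / 2) =
        (1 - Real.exp (-(2 * u))) / 2 := by
      rw [show -(2 * u) = -u + -u by ring, Real.exp_add]
      have : Real.exp (-u) * Real.exp u = 1 := by rw [← Real.exp_add]; simp
      linear_combination (1/2) * this
    rw [h6]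
    have := Real.add_one_le_exp (-(2 * u))
    linarith
  have h6 : (Real.exp (-(u / 2))) ^ 2 = Real.exp (-u) := by
    rw [← Real.exp_nat_mul]; congr 1; push_cast; ring
  have h7 : (Real.exp (-(u / 2))) ^ 2 ≤ ‖Gamma (1 + I * y)‖ ^ 2 := by
    rw [h6, h3, h4]; exact h5
  exact (pow_le_pow_iff_left₀ (Real.exp_pos _).le (norm_nonneg _) two_ne_zero).mp h7

lemma norm_Gamma_ge {x y : ℝ} (hx : 1 ≤ x) :
    Real.Gamma x * Real.exp (-(Real.pi * |y| / 2)) ≤ ‖Gamma (x + I * y)‖ := by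
  rcases eq_or_lt_of_le hx with rfl | hx1
  · simpa using norm_Gamma_one_add_I y
  have hb : 0 < x - 1 := by linarith
  have h1 := Complex.Gamma_mul_Gamma_eq_betaIntegral (s := 1 + I * y) (t := ((x - 1 : ℝ) : ℂ))
    (by simp) (by simpa using hb)
  have hsum : (1 + I * y : ℂ) + ((x - 1 : ℝ) : ℂ) = x + I * y := by push_cast; ring
  rw [hsum] at h1
  have h2 : ‖Complex.betaIntegral (1 + I * y) ((x - 1 : ℝ) : ℂ)‖ ≤ 1 / (x - 1) := by
    unfold Complex.betaIntegral
    have h3 : ∀ t ∈ Ioo (0:ℝ) 1, ‖(t : ℂ) ^ ((1 + I * y : ℂ) - 1) * (1 - (t:ℂ)) ^ (((x - 1 : ℝ) : ℂ) - 1)‖ =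
        (1 - t) ^ (x - 1 - 1) := by
      intro t ht
      rw [norm_mul]
      have e1 : ‖(t : ℂ) ^ ((1 + I * y : ℂ) - 1)‖ = 1 := by
        rw [Complex.norm_cpow_eq_rpow_re_of_pos ht.1]
        simp
      have e2 : ‖(1 - (t:ℂ)) ^ (((x - 1 : ℝ) : ℂ) - 1)‖ = (1 - t) ^ (x - 1 - 1) := by
        have : (1 - (t:ℂ)) = ((1 - t : ℝ) : ℂ) := by push_cast; rfl
        rw [this, Complex.norm_cpow_eq_rpow_re_of_pos (by linarith [ht.2])]
        simp
      rw [e1, e2, one_mul]
    calc _ ≤ ∫ t in (0:ℝ)..1, ‖(t : ℂ) ^ ((1 + I * y : ℂ) - 1) * (1 - (t:ℂ)) ^ (((x - 1 : ℝ) : ℂ) - 1)‖ :=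
          intervalIntegral.norm_integral_le_integral_norm (by norm_num)
      _ = ∫ t in (0:ℝ)..1, (1 - t) ^ (x - 1 - 1) := by
          rw [intervalIntegral.integral_of_le (by norm_num), intervalIntegral.integral_of_le (by norm_num),
            integral_Ioc_eq_integral_Ioo, integral_Ioc_eq_integral_Ioo]
          exact setIntegral_congr_fun measurableSet_Ioo h3
      _ = 1 / (x - 1) := by
          rw [intervalIntegral.integral_comp_sub_left (fun u => u ^ (x - 1 - 1)) 1]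
          simp only [sub_self, sub_zero]
          rw [integral_rpow (Or.inl (by linarith))]
          simp only [sub_add_cancel, Real.one_rpow]
          rw [Real.zero_rpow hb.ne']
          ring
  have h4 : ‖Gamma (1 + I * y)‖ * ‖Gamma ((x - 1 : ℝ) : ℂ)‖ =
      ‖Gamma (x + I * y)‖ * ‖Complex.betaIntegral (1 + I * y) ((x - 1 : ℝ) : ℂ)‖ := by
    rw [← norm_mul, ← norm_mul, h1]
  have h5 : ‖Gamma ((x - 1 : ℝ) : ℂ)‖ = Real.Gamma (x - 1) := by
    rw [Complex.Gamma_ofReal, Complex.norm_real, Real.norm_of_nonneg]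
    exact (Real.Gamma_pos_of_pos hb).le
  have h6 : Real.Gamma x = (x - 1) * Real.Gamma (x - 1) := by
    have := Real.Gamma_add_one hb.ne'
    rwa [sub_add_cancel] at this
  rw [h5] at h4
  have h7 := norm_Gamma_one_add_I y
  have hG : 0 < Real.Gamma (x - 1) := Real.Gamma_pos_of_pos hb
  have h8 : ‖Gamma (1 + I * y)‖ * Real.Gamma (x - 1) ≤ ‖Gamma (x + I * y)‖ * (1 / (x - 1)) := by
    rw [h4]
    exact mul_le_mul_of_nonneg_left h2 (norm_nonneg _)
  have h9 : ‖Gamma (1 + I * y)‖ * Real.Gamma (x - 1) * (x - 1) ≤ ‖Gamma (x + I * y)‖ := by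
    calc _ ≤ ‖Gamma (x + I * y)‖ * (1 / (x - 1)) * (x - 1) :=
          mul_le_mul_of_nonneg_right h8 hb.le
      _ = _ := by field_simp
  rw [h6]
  calc (x - 1) * Real.Gamma (x - 1) * Real.exp (-(Real.pi * |y| / 2))
      ≤ (x - 1) * Real.Gamma (x - 1) * ‖Gamma (1 + I * y)‖ := by
        apply mul_le_mul_of_nonneg_left h7; positivity
    _ = ‖Gamma (1 + I * y)‖ * Real.Gamma (x - 1) * (x - 1) := by ring
    _ ≤ _ := h9

/-- lower bound for the archimedean factor in the half plane Re s ≥ 2 -/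
lemma log_norm_Gammaℝ_ge {s : ℂ} (hs : 2 ≤ s.re) :
    s.re / 2 * Real.log ‖s‖ - 4 * ‖s‖ ≤ Real.log ‖Gammaℝ s‖ := by
  have hσ : 0 < s.re := by linarith
  set x : ℝ := s.re / 2 with hx
  have hx1 : 1 ≤ x := by rw [hx]; linarith
  have hx0 : 0 < x := by linarith
  have hs2 : s / 2 = x + I * ((s.im / 2 : ℝ) : ℂ) := by
    apply Complex.ext <;> simp [hx]
  have hnorm : ‖Gammaℝ s‖ = Real.pi ^ (-x) * ‖Gamma (s / 2)‖ := by
    rw [Gammaℝ_def, norm_mul, Complex.norm_cpow_eq_rpow_re_of_pos Real.pi_pos]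
    congr 2
    simp [hx]; ring
  have hG : Real.Gamma x * Real.exp (-(Real.pi * |s.im / 2| / 2)) ≤ ‖Gamma (s / 2)‖ := by
    rw [hs2]; exact norm_Gamma_ge hx1
  have hGx : 0 < Real.Gamma x := Real.Gamma_pos_of_pos hx0
  have hpos : 0 < Real.Gamma x * Real.exp (-(Real.pi * |s.im / 2| / 2)) := by positivity
  have hlog1 : Real.log (Real.Gamma x) - Real.pi * |s.im / 2| / 2 ≤ Real.log ‖Gamma (s / 2)‖ := by
    have := Real.log_le_log hpos hG
    rw [Real.log_mul hGx.ne' (Real.exp_pos _).ne', Real.log_exp] at this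
    linarith
  have hgl : x * Real.log x - x - Real.log x ≤ Real.log (Real.Gamma x) := by
    have h1 := gamma_lower hx0
    rw [Real.Gamma_add_one hx0.ne'] at h1
    have h2 : 0 < x ^ x * Real.exp (-x) := by positivity
    have h3 := Real.log_le_log h2 h1
    rw [Real.log_mul (by positivity) (Real.exp_pos _).ne', Real.log_exp,
      Real.log_mul hx0.ne' hGx.ne', Real.log_rpow hx0] at h3
    linarith
  have hsn : 0 < ‖s‖ := by
    rw [norm_pos_iff]; rintro rfl; simp at hσ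
  have hlogπ : Real.log Real.pi ≤ 1.2 := by
    have h1 : Real.pi < 3.15 := Real.pi_lt_d2
    have h2 : Real.log Real.pi ≤ Real.log (Real.exp 1.2) := by
      apply Real.log_le_log Real.pi_pos
      have h3 : (3.15 : ℝ) ≤ Real.exp 1.2 := by
        have h4 := Real.quadratic_le_exp_of_nonneg (x := 0.6) (by norm_num)
        have h5 : Real.exp 1.2 = Real.exp 0.6 * Real.exp 0.6 := by
          rw [← Real.exp_add]; norm_num
        have h6 : (1.78 : ℝ) ≤ Real.exp 0.6 := by norm_num at h4 ⊢; linarith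
        rw [h5]
        nlinarith
      linarith
    rwa [Real.log_exp] at h2
  have hlog : Real.log ‖Gammaℝ s‖ = -x * Real.log Real.pi + Real.log ‖Gamma (s / 2)‖ := by
    rw [hnorm, Real.log_mul (by positivity), Real.log_rpow Real.pi_pos]
    have : 0 < ‖Gamma (s / 2)‖ := lt_of_lt_of_le hpos hG
    exact this.ne'
  have hre : s.re ≤ ‖s‖ := Complex.re_le_norm s
  have him : |s.im| ≤ ‖s‖ := Complex.abs_im_le_norm s
  have hxs : x * Real.log ‖s‖ ≤ x * Real.log x + ‖s‖ := by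
    have h1 : Real.log (‖s‖ / x) ≤ ‖s‖ / x := by
      have := Real.log_le_sub_one_of_pos (div_pos hsn hx0)
      linarith
    rw [Real.log_div hsn.ne' hx0.ne'] at h1
    have h2 : x * (Real.log ‖s‖ - Real.log x) ≤ x * (‖s‖ / x) :=
      mul_le_mul_of_nonneg_left h1 hx0.le
    have h3 : x * (‖s‖ / x) = ‖s‖ := by field_simp
    linarith
  have hlx : Real.log x ≤ x := by
    have := Real.log_le_sub_one_of_pos hx0; linarith
  have hpi4 : Real.pi * |s.im / 2| / 2 ≤ 0.8 * ‖s‖ := by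
    have h1 : Real.pi < 3.15 := Real.pi_lt_d2
    have h2 : |s.im / 2| = |s.im| / 2 := by rw [abs_div]; norm_num
    rw [h2]
    have h3 : 0 ≤ |s.im| := abs_nonneg _
    nlinarith [Real.pi_pos]
  have hxpi : x * Real.log Real.pi ≤ 0.6 * ‖s‖ := by
    have : x * Real.log Real.pi ≤ x * 1.2 := mul_le_mul_of_nonneg_left hlogπ hx0.le
    have : x ≤ ‖s‖ / 2 := by rw [hx]; linarith
    linarith
  have hx2 : x ≤ ‖s‖ / 2 := by rw [hx]; linarith
  rw [hlog]
  linarith

lemma norm_zeta_ge {s : ℂ} (hs : 2 ≤ s.re) : 1 / 4 ≤ ‖riemannZeta s‖ := by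
  have h1 : 1 < s.re := by linarith
  rw [zeta_eq_tsum_one_div_nat_add_one_cpow h1]
  have hsum : Summable (fun n : ℕ => 1 / ((n : ℂ) + 1) ^ s) := by
    have := (Complex.summable_one_div_nat_cpow (p := s)).mpr h1
    have h2 := (summable_nat_add_iff 1).mpr this
    simpa using h2
  rw [hsum.tsum_eq_zero_add]
  have hb : ∀ n : ℕ, ‖1 / (((n + 1 : ℕ) : ℂ) + 1) ^ s‖ ≤ 1 / ((n : ℝ) + 2) ^ 2 := by
    intro n
    rw [norm_div, norm_one]
    have : (((n + 1 : ℕ) : ℂ) + 1) = (((n : ℝ) + 2 : ℝ) : ℂ) := by push_cast; ring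
    rw [this, Complex.norm_cpow_eq_rpow_re_of_pos (by positivity)]
    apply one_div_le_one_div_of_le (by positivity)
    have : ((n : ℝ) + 2) ^ 2 = ((n : ℝ) + 2) ^ (2 : ℝ) := by norm_cast
    rw [this]
    apply Real.rpow_le_rpow_of_exponent_le _ hs
    have : (0:ℝ) ≤ n := Nat.cast_nonneg n
    linarith
  have hS : HasSum (fun n : ℕ => 1 / ((n : ℝ) + 2) ^ 2) (Real.pi ^ 2 / 6 - 1) := by
    have h := hasSum_zeta_two
    have h2 := (hasSum_nat_add_iff' 2).mpr h
    have e1 : Real.pi ^ 2 / 6 - 1 =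
        Real.pi ^ 2 / 6 - ∑ i ∈ Finset.range 2, 1 / ((i : ℕ) : ℝ) ^ 2 := by
      simp [Finset.sum_range_succ]
    have e2 : (fun n : ℕ => 1 / ((n : ℝ) + 2) ^ 2) = fun n : ℕ => 1 / (((n + 2 : ℕ)) : ℝ) ^ 2 := by
      ext n; push_cast; ring
    rw [e1, e2]
    exact h2
  have h3 : ‖∑' n : ℕ, 1 / (((n + 1 : ℕ) : ℂ) + 1) ^ s‖ ≤ Real.pi ^ 2 / 6 - 1 :=
    tsum_of_norm_bounded hS hb
  have h4 : Real.pi ^ 2 / 6 - 1 ≤ 3 / 4 := by
    have := Real.pi_lt_d2
    have h0 := Real.pi_pos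
    nlinarith
  have h5 : ‖(1 / (((0 : ℕ) : ℂ) + 1) ^ s : ℂ)‖ = 1 := by simp
  have h6 := norm_sub_le_norm_add (1 / (((0 : ℕ) : ℂ) + 1) ^ s : ℂ)
    (∑' n : ℕ, 1 / (((n + 1 : ℕ) : ℂ) + 1) ^ s)
  rw [h5] at h6
  linarith

lemma log_norm_xi_ge {s : ℂ} (hs : 2 ≤ s.re) :
    s.re / 2 * Real.log ‖s‖ - 4 * ‖s‖ - 2 ≤ Real.log ‖xi s‖ := by
  have hs1 : s ≠ 1 := by rintro rfl; norm_num at hs
  have hs0 : s ≠ 0 := by rintro rfl; norm_num at hs
  rw [xi_eq_zeta (by linarith) hs1]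
  have hG : Gammaℝ s ≠ 0 := Gammaℝ_ne_zero_of_re_pos (by linarith)
  have hz := norm_zeta_ge hs
  have hGn : 0 < ‖Gammaℝ s‖ := norm_pos_iff.mpr hG
  have h1 : 1 ≤ ‖s‖ * ‖s - 1‖ := by
    have h2 : 2 ≤ ‖s‖ := hs.trans (Complex.re_le_norm s)
    have h3 : 1 ≤ ‖s - 1‖ := by
      have := Complex.re_le_norm (s - 1)
      simp at this; linarith
    nlinarith
  have h2 : ‖Gammaℝ s‖ * (1 / 4) ≤ ‖s * (s - 1) * (Gammaℝ s * riemannZeta s)‖ := by
    rw [norm_mul, norm_mul, norm_mul]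
    have h3 : ‖Gammaℝ s‖ * (1 / 4) ≤ ‖Gammaℝ s‖ * ‖riemannZeta s‖ :=
      mul_le_mul_of_nonneg_left hz hGn.le
    have h4 : 0 ≤ ‖Gammaℝ s‖ * ‖riemannZeta s‖ := by positivity
    nlinarith
  have h3 := Real.log_le_log (by positivity) h2
  rw [Real.log_mul hGn.ne' (by norm_num)] at h3
  have h4 := log_norm_Gammaℝ_ge hs
  have h5 : -2 ≤ Real.log (1 / 4) := by
    rw [one_div, Real.log_inv]
    have : Real.log 4 ≤ 2 := by
      have h6 : Real.log 4 = 2 * Real.log 2 := by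
        rw [show (4:ℝ) = 2 ^ 2 by norm_num, Real.log_pow]; norm_num
      have := Real.log_two_lt_d9
      linarith
    linarith
  linarith

end Pool.Agent.Helper57.Zeta
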